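import Pool.Agent.P.MP_77d020_co.Latin

/-! Every finite affine plane of order at least three has a good colouring. -/

namespace Pool.Agent.P.MP_77d020_co

/-- A model fits a permutation of the directions. -/
def Model.Fits {F : Type*} [DecidableEq F] (M : Model F) (T : Option F → Option F) : Prop :=
  ∀ d, d ≠ some M.z → ∃ x, d = M.bf x ∧ T d = M.jf x

theorem exists_LD {F : Type*} [DecidableEq F] (L : F → F → F) (z a : F) (θ θi : F → F)
    (row : ∀ x k l, L x k = L x l → k = l) (col : ∀ k x y, L x k = L y k → x = y)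
    (idem : ∀ x, L x x = x) (az : a ≠ z) (θz : ∀ x, x ≠ z → θ x ≠ z)
    (Lθ : ∀ x, x ≠ z → L x (θ x) = z) (θiθ : ∀ x, x ≠ z → θi (θ x) = x)
    (θθi : ∀ k, k ≠ z → θ (θi k) = k) (θiz : ∀ k, k ≠ z → θi k ≠ z)
    (T : Equiv.Perm (Option F)) (hV : T none = some (θ a)) (hz : T (some z) = some z)
    (hfix : ∀ d, d ≠ some z → T d ≠ d)
    (hch : ∀ x, x ≠ z → x ≠ a → T (some x) ≠ some (θ x)) :
    ∃ X : LD F, X.L = L ∧ X.z = z ∧ X.a = a ∧ X.θ = θ ∧ T (some (X.b a)) = none ∧
      ∀ d, d ≠ some z → ∃ x, d = X.bf x ∧ T d = X.jf x := by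
  have hinj : ∀ d d', T d = T d' → d = d' := fun d d' h => T.injective h
  have hb : ∀ x, ∃ y, x ≠ z → T (some y) = if x = a then none else some (θ x) := by
    intro x
    by_cases hx : x = z
    · exact ⟨z, fun h => (h hx).elim⟩
    cases hy : T.symm (if x = a then none else some (θ x)) with
    | none =>
      rw [Equiv.symm_apply_eq, hV] at hy
      have := θiθ x hx; have := θiθ a az
      grind
    | some y => exact ⟨y, fun _ => by rw [← hy]; simp⟩
  choose b hb using hb
  let bi : F → F := fun k => (T (some k)).elim a θi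
  have hbi : ∀ k, (T (some k) = none ∧ bi k = a) ∨ ∃ j, T (some k) = some j ∧ bi k = θi j := by
    intro k
    cases h : T (some k) with
    | none => exact Or.inl ⟨rfl, by simp [bi, h]⟩
    | some j => exact Or.inr ⟨j, rfl, by simp [bi, h]⟩
  have bz : ∀ x, x ≠ z → b x ≠ z := by
    intro x hx h
    have := hb x hx; have := θz x hx; grind
  have bib : ∀ x, x ≠ z → bi (b x) = x := by
    intro x hx
    have := hb x hx; have := θiθ x hx; have := hbi (b x); grind
  have biz : ∀ k, k ≠ z → bi k ≠ z := by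
    intro k hk
    rcases hbi k with h | ⟨j, h1, h2⟩
    · rw [h.2]; exact az
    · rw [h2]; refine θiz j ?_
      rintro rfl
      exact hk (Option.some.inj (hinj _ _ (h1.trans hz.symm)))
  have hT : ∀ k, k ≠ z → T (some k) = if bi k = a then none else some (θ (bi k)) := by
    intro k hk
    rcases hbi k with h | ⟨j, h1, h2⟩
    · simp [h.1, h.2]
    · have hj : j ≠ z := by
        rintro rfl
        exact hk (Option.some.inj (hinj _ _ (h1.trans hz.symm)))
      have h3 := θθi j hj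
      have h4 : θi j ≠ a := by
        intro h
        rw [h] at h3
        have := hinj _ _ (hV.trans (h3 ▸ h1.symm))
        simp at this
      rw [h2, if_neg h4, h3, h1]
  have bbi : ∀ k, k ≠ z → b (bi k) = k := fun k hk =>
    Option.some.inj (hinj _ _ ((hb _ (biz k hk)).trans (hT k hk).symm))
  have bθ : ∀ x, x ≠ z → x ≠ a → b x ≠ θ x := by
    intro x hx hxa h
    have h1 := hb x hx
    rw [if_neg hxa, h] at h1
    exact hfix _ (by simpa using θz x hx) h1
  have bne : ∀ x, x ≠ z → x ≠ a → b x ≠ x := by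
    intro x hx hxa h
    have h1 := hb x hx
    rw [if_neg hxa, h] at h1
    exact hch x hx hxa h1
  refine ⟨⟨L, z, a, θ, θi, b, bi, row, col, idem, az, θz, Lθ, θiθ, θθi, θiz, bz, bib, bbi, biz,
    bθ, bne⟩, rfl, rfl, rfl, rfl, by simpa using hb a az, ?_⟩
  rintro (_ | k) hk
  · exact ⟨z, by simp [LD.bf], by simp [LD.jf, hV]⟩
  · have hk' : k ≠ z := fun h => hk (congrArg some h)
    refine ⟨bi k, by simp [LD.bf, biz k hk', bbi k hk'], ?_⟩
    simp only [LD.jf, if_neg (biz k hk')]
    exact hT k hk'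

section FinData

variable {q : ℕ}

def zF (h : 3 ≤ q) : Fin q := ⟨q - 1, by omega⟩
def aF (h : 3 ≤ q) : Fin q := ⟨q - 2, by omega⟩
def θF (h : 3 ≤ q) (x : Fin q) : Fin q := ⟨nxt q x, by unfold nxt; split_ifs <;> omega⟩
def θiF (h : 3 ≤ q) (x : Fin q) : Fin q := ⟨prv q x, by unfold prv; split_ifs <;> omega⟩

theorem ne_zF (h : 3 ≤ q) (x : Fin q) : x ≠ zF h ↔ x.val + 1 < q := by
  have := x.2
  rw [Ne, Fin.ext_iff]; simp only [zF]; omega

theorem fin_LD (h : 3 ≤ q) (L : Fin q → Fin q → Fin q)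
    (row : ∀ x k l, L x k = L x l → k = l) (col : ∀ k x y, L x k = L y k → x = y)
    (idem : ∀ x, L x x = x) (Lθ : ∀ x, x ≠ zF h → L x (θF h x) = zF h)
    (T : Equiv.Perm (Option (Fin q))) (hV : T none = some ⟨0, by omega⟩)
    (hz : T (some (zF h)) = some (zF h)) (hfix : ∀ d, d ≠ some (zF h) → T d ≠ d)
    (hch : ∀ (i : ℕ) (hi : i + 1 < q), T (some ⟨i, by omega⟩) ≠ some ⟨i + 1, hi⟩) :
    ∃ X : LD (Fin q), X.L = L ∧ X.z = zF h ∧ X.a = aF h ∧ X.θ = θF h ∧
      T (some (X.b (aF h))) = none ∧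
      ∀ d, d ≠ some (zF h) → ∃ x, d = X.bf x ∧ T d = X.jf x := by
  refine exists_LD L (zF h) (aF h) (θF h) (θiF h) row col idem ?_ ?_ Lθ ?_ ?_ ?_ T ?_ hz hfix ?_
  · rw [ne_zF]; simp only [aF]; omega
  · intro x hx
    rw [ne_zF] at hx ⊢; simp only [θF, nxt]; split_ifs <;> omega
  · intro x hx
    rw [ne_zF] at hx; apply Fin.ext; simp only [θF, θiF]
    by_cases h2 : x.val + 2 < q
    · have : nxt q x = x + 1 := by simp [nxt, h2]
      rw [this]; unfold prv; rw [if_neg (by omega)]; omega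
    · have : nxt q x = 0 := by simp [nxt, h2]
      rw [this]; unfold prv; rw [if_pos (Or.inl rfl)]; omega
  · intro x hx
    rw [ne_zF] at hx; apply Fin.ext; simp only [θF, θiF, nxt, prv]; split_ifs <;> omega
  · intro x hx
    rw [ne_zF] at hx ⊢; simp only [θiF, prv]; split_ifs <;> omega
  · rw [hV]; congr 1; apply Fin.ext; simp only [θF, aF, nxt]; split_ifs <;> omega
  · intro x hx hxa
    rw [ne_zF] at hx
    have h2 : x.val + 2 < q := by
      have : x.val ≠ q - 2 := fun h' => hxa (Fin.ext h')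
      omega
    have := hch x hx
    have e : θF h x = ⟨x + 1, hx⟩ := by apply Fin.ext; simp [θF, nxt, h2]
    rwa [e]

theorem fits_odd (h : 3 ≤ q) (hq : q % 2 = 1)
    (T : Equiv.Perm (Option (Fin q))) (hV : T none = some ⟨0, by omega⟩)
    (hz : T (some (zF h)) = some (zF h)) (hfix : ∀ d, d ≠ some (zF h) → T d ≠ d)
    (hch : ∀ (i : ℕ) (hi : i + 1 < q), T (some ⟨i, by omega⟩) ≠ some ⟨i + 1, hi⟩) :
    ∃ M : Model (Fin q), M.z = zF h ∧ M.Fits T := by
  obtain ⟨X, h1, h2, h3, h4, -, h6⟩ := fin_LD h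
    (fun x k => ⟨Lodd q x k, Lodd_lt h hq x.2 k.2⟩)
    (fun x k l e => Fin.ext (Lodd_row h hq x.2 k.2 l.2 (congrArg Fin.val e)))
    (fun k x y e => Fin.ext (Lodd_col h hq x.2 y.2 k.2 (congrArg Fin.val e)))
    (fun x => Fin.ext (Lodd_idem h hq x.2))
    (fun x hx => Fin.ext (Lodd_nxt h hq ((ne_zF h x).1 hx))) T hV hz hfix hch
  refine ⟨X.modelI ?_, h2, fun d hd => h6 d (h2 ▸ hd)⟩
  intro x hx
  rw [h2] at hx
  rw [h1, h2, h4]
  exact Fin.ext (Lodd_z h hq ((ne_zF h x).1 hx))

theorem fits_even (h4 : 4 ≤ q) (hq : q % 2 = 0)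
    (T : Equiv.Perm (Option (Fin q))) (hV : T none = some ⟨0, by omega⟩)
    (hz : T (some (zF (by omega))) = some (zF (by omega)))
    (hfix : ∀ d, d ≠ some (zF (by omega)) → T d ≠ d)
    (hch : ∀ (i : ℕ) (hi : i + 1 < q), T (some ⟨i, by omega⟩) ≠ some ⟨i + 1, hi⟩)
    (hb : T (some ⟨0, by omega⟩) = none ∨ T (some ⟨q - 3, by omega⟩) = none) :
    ∃ M : Model (Fin q), M.z = zF (by omega) ∧ M.Fits T := by
  have h : 3 ≤ q := by omega
  obtain ⟨X, h1, h2, h3, h5, h7, h6⟩ := fin_LD h
    (fun x k => ⟨Leven q x k, Leven_lt h4 x.2 k.2⟩)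
    (fun x k l e => Fin.ext (Leven_row h4 hq x.2 k.2 l.2 (congrArg Fin.val e)))
    (fun k x y e => Fin.ext (Leven_col h4 x.2 y.2 k.2 (congrArg Fin.val e)))
    (fun x => Fin.ext (Leven_idem h4 x.2))
    (fun x hx => Fin.ext (Leven_nxt h4 ((ne_zF h x).1 hx))) T hV hz hfix hch
  have e1 : ∀ x, x ≠ X.z → X.L X.z (X.θ x) = X.L x X.z := by
    intro x hx
    rw [h2] at hx
    rw [h1, h2, h5]
    exact Fin.ext (Leven_z h4 ((ne_zF h x).1 hx))
  rcases hb with hb | hb
  · refine ⟨X.modelF e1 ?_, h2, fun d hd => h6 d (h2 ▸ hd)⟩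
    rw [h3, h5, Option.some.inj (T.injective (h7.trans hb.symm))]
    apply Fin.ext; simp only [θF, aF, nxt]; split_ifs <;> omega
  · refine ⟨X.modelN e1 ⟨q - 4, by omega⟩ ?_ ?_ ?_ ?_ ?_, h2, fun d hd => h6 d (h2 ▸ hd)⟩
    · rw [h2, ne_zF]; simp only; omega
    · rw [h3, Ne, Fin.ext_iff]; simp only [aF]; omega
    · rw [h3, h5, Option.some.inj (T.injective (h7.trans hb.symm))]
      apply Fin.ext; simp only [θF, nxt]; split_ifs <;> omega
    · rw [h1, h2, h3]; exact Fin.ext (Leven_a h4)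
    · rw [h1, h3, h5]; exact Fin.ext (Leven_b h4)

end FinData

/-- Transport of the permutation along the labelling given by a list. -/
theorem label_perm {D : Type*} (T : Equiv.Perm D) (z V : D) (hz : T z = z)
    (hfix : ∀ d, d ≠ z → T d ≠ d) (l : List D) (hn : (V :: l).Nodup) (ha : ∀ d, d ∈ V :: l)
    (h3 : 3 ≤ l.length) (h0 : l[0] = T V) (hl : l[l.length - 1] = z) :
    ∃ (e : D ≃ Option (Fin l.length)) (T' : Equiv.Perm (Option (Fin l.length))),
      (∀ d, T' (e d) = e (T d)) ∧ e z = some (zF h3) ∧ T' none = some ⟨0, by omega⟩ ∧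
      T' (some (zF h3)) = some (zF h3) ∧ (∀ d, d ≠ some (zF h3) → T' d ≠ d) ∧
      (∀ i j : Fin l.length, T' (some i) = some j ↔ T l[i] = l[j]) ∧
      (∀ i : Fin l.length, T' (some i) = none ↔ T l[i] = V) := by
  obtain ⟨e, e1, e2⟩ := exists_label V l hn ha
  have ez : e z = some (zF h3) := by
    rw [← Equiv.eq_symm_apply, e2]; exact hl.symm
  refine ⟨e, e.symm.trans (T.trans e), fun d => by simp, ez, ?_, ?_, ?_, ?_, ?_⟩
  · simp only [Equiv.trans_apply, e1]
    rw [← Equiv.eq_symm_apply, e2]; exact h0.symm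
  · simp only [Equiv.trans_apply]
    rw [← ez]; simp [hz]
  · intro d hd h
    simp only [Equiv.trans_apply] at h
    refine hfix (e.symm d) (fun h' => hd ?_) (by rw [← Equiv.eq_symm_apply] at h; exact h)
    rw [← ez, ← h']; simp
  · intro i j
    simp only [Equiv.trans_apply]
    rw [← Equiv.eq_symm_apply, e2, e2]
  · intro i
    simp only [Equiv.trans_apply]
    rw [← Equiv.eq_symm_apply, e2, e1]

/-- The combinatorial core: a fitting model exists for every admissible permutation. -/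
def HasModel {D : Type*} (T : D → D) (z : D) : Prop :=
  ∃ (q : ℕ) (e : D ≃ Option (Fin q)) (T' : Option (Fin q) → Option (Fin q)) (M : Model (Fin q)),
    (∀ d, T' (e d) = e (T d)) ∧ e z = some M.z ∧ M.Fits T'

theorem hasModel_of_list {D : Type*} (T : Equiv.Perm D) (z V : D) (hz : T z = z)
    (hfix : ∀ d, d ≠ z → T d ≠ d) (l : List D) (hn : (V :: l).Nodup) (ha : ∀ d, d ∈ V :: l)
    (h3 : 3 ≤ l.length) (h0 : l[0] = T V) (hl : l[l.length - 1] = z)
    (hc : List.IsChain (fun u w => T u ≠ w) l)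
    (hb : l.length % 2 = 1 ∨ T (T V) = V ∨ T l[l.length - 3] = V) : HasModel T z := by
  obtain ⟨e, T', t1, t2, t3, t4, t5, t6, t7⟩ := label_perm T z V hz hfix l hn ha h3 h0 hl
  have hch : ∀ (i : ℕ) (hi : i + 1 < l.length),
      T' (some ⟨i, by omega⟩) ≠ some ⟨i + 1, hi⟩ := by
    intro i hi
    rw [Ne, t6]
    exact List.isChain_iff_getElem.1 hc i hi
  by_cases hq : l.length % 2 = 1
  · obtain ⟨M, m1, m2⟩ := fits_odd h3 hq T' t3 t4 t5 hch
    exact ⟨_, e, T', M, t1, m1 ▸ t2, m2⟩
  · obtain ⟨M, m1, m2⟩ := fits_even (by omega) (by omega) T' t3 t4 t5 hch (by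
      rcases hb with hb | hb | hb
      · exact (hq hb).elim
      · left; rw [t7]; simp only [Fin.getElem_fin]; rw [h0, hb]
      · right; rw [t7]; exact hb)
    exact ⟨_, e, T', M, t1, m1 ▸ t2, m2⟩

theorem exists_not_mem {D : Type*} [Fintype D] [DecidableEq D] (l : List D)
    (h : l.length < Fintype.card D) : ∃ d, d ∉ l := by
  by_contra hc
  push Not at hc
  have : (Finset.univ : Finset D) ⊆ l.toFinset := fun d _ => List.mem_toFinset.2 (hc d)
  have h2 := Finset.card_le_card this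
  have h3 := List.toFinset_card_le l
  simp only [Finset.card_univ] at h2
  omega

theorem all_mem {D : Type*} [Fintype D] [DecidableEq D] (l : List D) (hn : l.Nodup)
    (h : l.length = Fintype.card D) : ∀ d, d ∈ l := by
  have : l.toFinset = Finset.univ :=
    Finset.eq_univ_of_card _ (by rw [List.toFinset_card_of_nodup hn, h])
  intro d
  rw [← List.mem_toFinset, this]; exact Finset.mem_univ d

theorem length_eq {D : Type*} [Fintype D] [DecidableEq D] (l : List D) (hn : l.Nodup)
    (ha : ∀ d, d ∈ l) : l.length = Fintype.card D := by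
  rw [← List.toFinset_card_of_nodup hn, ← Finset.card_univ]
  congr 1
  ext d; simp [ha d]

theorem hasModel_A {D : Type*} [Fintype D] [DecidableEq D] (T : Equiv.Perm D) (z V : D)
    (hz : T z = z) (hfix : ∀ d, d ≠ z → T d ≠ d) (hV : V ≠ z) (h6 : 6 ≤ Fintype.card D)
    (hb : Fintype.card D % 2 = 0 ∨ T (T V) = V) : HasModel T z := by
  have hinj : ∀ d d', T d = T d' → d = d' := fun d d' h => T.injective h
  obtain ⟨u, hu⟩ := exists_not_mem [V, z, T V, T (T V)] (by simp; omega)
  obtain ⟨w, hw⟩ := exists_not_mem [V, z, T V, u, T u] (by simp; omega)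
  have := hfix V hV
  simp only [List.mem_cons, List.not_mem_nil, or_false, not_or] at hu hw
  obtain ⟨m, n1, n2, n3⟩ := exists_order T T.injective V (T V) [z] (by simp) [u, w] (by simp)
    (by simp; grind) (by simp; grind)
  have hlen := length_eq _ n1 n2
  simp only [List.length_cons] at hlen
  refine hasModel_of_list T z V hz hfix _ n1 n2 (by omega) (by simp) (by simp) n3 ?_
  rcases hb with hb | hb
  · left; omega
  · exact Or.inr (Or.inl hb)

theorem hasModel_B {D : Type*} [Fintype D] [DecidableEq D] (T : Equiv.Perm D) (z V : D)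
    (hz : T z = z) (hfix : ∀ d, d ≠ z → T d ≠ d) (hV : V ≠ z) (h7 : 7 ≤ Fintype.card D)
    (h2 : ∀ d, d ≠ z → T (T d) ≠ d) : HasModel T z := by
  have hinj : ∀ d d', T d = T d' → d = d' := fun d d' h => T.injective h
  obtain ⟨b, hb⟩ := T.surjective V
  obtain ⟨r, hr⟩ := T.surjective b
  have f1 := hfix V hV
  have f2 := h2 V hV
  have hbz : b ≠ z := by grind
  have f3 := hfix b hbz
  have hjz : T V ≠ z := by grind
  have f4 := hfix _ hjz
  have : ∃ u w, [V, T V, u, w, b, z].Nodup ∧ T (T V) ≠ u ∧ T u ≠ w ∧ T w ≠ b := by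
    by_cases hp : T (T V) = b ∨ T (T V) = r
    · obtain ⟨u, hu⟩ := exists_not_mem [V, z, T V, b, T (T V)] (by simp; omega)
      simp only [List.mem_cons, List.not_mem_nil, or_false, not_or] at hu
      have f5 := h2 u hu.2.1
      have f6 := hfix (T u) (by grind)
      refine ⟨u, T (T u), ?_, ?_, ?_, ?_⟩
      · simp; grind
      · grind
      · grind
      · grind
    · refine ⟨r, T (T V), ?_, ?_, ?_, ?_⟩
      · simp; grind
      · grind
      · grind
      · grind
  obtain ⟨u, w, g1, g2, g3, g4⟩ := this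
  obtain ⟨y, hy⟩ := exists_not_mem [V, T V, u, w, b, z] (by simp; omega)
  simp only [List.mem_cons, List.not_mem_nil, or_false, not_or] at hy
  simp at g1
  obtain ⟨m, n1, n2, n3⟩ := exists_order T T.injective V (T V) [b, y, z] (by simp) [u, w]
    (by simp) (by simp; grind) (by simp; grind)
  refine hasModel_of_list T z V hz hfix _ n1 n2 (by simp) (by simp) (by simp) n3 ?_
  right; right
  simp [hb]

theorem hasModel_3 {D : Type*} [Fintype D] [DecidableEq D] (T : Equiv.Perm D) (z V : D)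
    (hz : T z = z) (hfix : ∀ d, d ≠ z → T d ≠ d) (hV : V ≠ z) (h4 : Fintype.card D = 4) :
    HasModel T z := by
  have hinj : ∀ d d', T d = T d' → d = d' := fun d d' h => T.injective h
  obtain ⟨u, hu⟩ := exists_not_mem [V, z, T V] (by simp; omega)
  simp only [List.mem_cons, List.not_mem_nil, or_false, not_or] at hu
  have f1 := hfix V hV
  have hn : [V, T V, u, z].Nodup := by simp; grind
  have ha := all_mem _ hn (by simp [h4])
  have f2 := hfix u hu.2.1
  have f3 := hfix (T V) (by grind)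
  have a1 := ha (T u)
  have a2 := ha (T (T V))
  simp only [List.mem_cons, List.not_mem_nil, or_false] at a1 a2
  have g1 : T u = V := by grind
  have g2 : T (T V) = u := by grind
  obtain ⟨e, T', t1, t2, t3, t4, t5, t6, t7⟩ :=
    label_perm T z V hz hfix [T V, u, z] hn ha (by simp) (by simp) (by simp)
  refine ⟨3, e, T', model3, t1, t2, ?_⟩
  have k1 : T' (some 0) = some 1 := (t6 0 1).2 g2
  have k2 : T' (some 1) = none := (t7 1).2 g1
  rintro (_ | d) hd
  · exact ⟨2, rfl, t3⟩
  · fin_cases d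
    · exact ⟨0, rfl, k1⟩
    · exact ⟨1, rfl, k2⟩
    · exact (hd rfl).elim

theorem hasModel_4 {D : Type*} [Fintype D] [DecidableEq D] (T : Equiv.Perm D) (z V : D)
    (hz : T z = z) (hfix : ∀ d, d ≠ z → T d ≠ d) (hV : V ≠ z) (h5 : Fintype.card D = 5) :
    HasModel T z := by
  have hinj : ∀ d d', T d = T d' → d = d' := fun d d' h => T.injective h
  have f1 := hfix V hV
  by_cases hF : T (T V) = V
  · obtain ⟨u, hu⟩ := exists_not_mem [V, z, T V] (by simp; omega)
    simp only [List.mem_cons, List.not_mem_nil, or_false, not_or] at hu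
    have f2 := hfix u hu.2.1
    have hn : [V, T V, u, T u, z].Nodup := by simp; grind
    have ha := all_mem _ hn (by simp [h5])
    have f3 := hfix (T u) (by grind)
    have a1 := ha (T (T u))
    simp only [List.mem_cons, List.not_mem_nil, or_false] at a1
    have g1 : T (T u) = u := by grind
    obtain ⟨e, T', t1, t2, t3, t4, t5, t6, t7⟩ :=
      label_perm T z V hz hfix [T V, u, T u, z] hn ha (by simp) (by simp) (by simp)
    refine ⟨4, e, T', model4, t1, t2, ?_⟩
    have k1 : T' (some 0) = none := (t7 0).2 hF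
    have k2 : T' (some 1) = some 2 := (t6 1 2).2 rfl
    have k3 : T' (some 2) = some 1 := (t6 2 1).2 g1
    rintro (_ | d) hd
    · exact ⟨3, rfl, t3⟩
    · fin_cases d
      · exact ⟨0, rfl, k1⟩
      · exact ⟨1, rfl, k2⟩
      · exact ⟨2, rfl, k3⟩
      · exact (hd rfl).elim
  · obtain ⟨b, hb⟩ := T.surjective V
    obtain ⟨y, hy⟩ := exists_not_mem [V, z, T V, b] (by simp; omega)
    simp only [List.mem_cons, List.not_mem_nil, or_false, not_or] at hy
    have hbz : b ≠ z := by grind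
    have f3 := hfix b hbz
    have hn : [V, T V, b, y, z].Nodup := by simp; grind
    have ha := all_mem _ hn (by simp [h5])
    have f2 := hfix y hy.2.1
    have a1 := ha (T y)
    simp only [List.mem_cons, List.not_mem_nil, or_false] at a1
    refine hasModel_of_list T z V hz hfix [T V, b, y, z] hn ha (by simp) (by simp) (by simp)
      (by simp; grind) (Or.inr (Or.inr (by simpa using hb)))

theorem hasModel {D : Type*} [Fintype D] [DecidableEq D] (T : Equiv.Perm D) (z : D)
    (hz : T z = z) (hfix : ∀ d, d ≠ z → T d ≠ d) (h4 : 4 ≤ Fintype.card D) : HasModel T z := by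
  obtain ⟨V, hV⟩ := exists_not_mem [z] (by simp; omega)
  have hV' : V ≠ z := by simpa using hV
  by_cases c4 : Fintype.card D = 4
  · exact hasModel_3 T z V hz hfix hV' c4
  by_cases c5 : Fintype.card D = 5
  · exact hasModel_4 T z V hz hfix hV' c5
  by_cases ce : Fintype.card D % 2 = 0
  · exact hasModel_A T z V hz hfix hV' (by omega) (Or.inl ce)
  by_cases h2 : ∀ d, d ≠ z → T (T d) ≠ d
  · exact hasModel_B T z V hz hfix hV' (by omega) h2
  · push Not at h2
    obtain ⟨W, hW, hW'⟩ := h2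
    exact hasModel_A T z W hz hfix hW (by omega) (Or.inr hW')

/-- Every affine plane with at least four directions, finitely many, has a good colouring. -/
theorem APlane.exists_good {A D Λ : Type*} [Fintype D] (π : APlane A D Λ)
    (h4 : 4 ≤ Fintype.card D) (O O' : A) (hOO : O ≠ O') : ∃ c, π.Good c := by
  classical
  set z := π.dir O O' with hzdef
  have hz : π.ln O z = π.ln O' z := π.ln_dir hOO
  obtain ⟨d1, hd1⟩ := exists_not_mem [z] (by simp; omega)
  obtain ⟨d2, hd2⟩ := exists_not_mem [z, d1] (by simp; omega)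
  simp only [List.mem_cons, List.not_mem_nil, or_false, not_or] at hd1 hd2
  obtain ⟨G, hG1, hG2⟩ := π.meet d1 d2 (Ne.symm hd2.2) O O'
  have hG : π.ln G z ≠ π.ln O z := by
    intro h
    exact hOO ((π.eq_of_two hd1 hG1 h).symm.trans (π.eq_of_two hd2.1 hG2 (h.trans hz)))
  have hQ : ∀ d, ∃ Q, d ≠ z → π.ln Q d = π.ln O d ∧ π.ln Q z = π.ln G z := by
    intro d
    by_cases hd : d = z
    · exact ⟨O, fun h => (h hd).elim⟩
    · obtain ⟨p, hp⟩ := π.meet d z hd O G
      exact ⟨p, fun _ => hp⟩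
  choose Q hQ using hQ
  have hO : ∀ p, π.ln p z = π.ln G z → O ≠ p := fun p h h' => hG (by rw [← h, ← h'])
  have hO' : ∀ p, π.ln p z = π.ln G z → O' ≠ p := fun p h h' => hG (by rw [← h, ← h', hz])
  have hdz : ∀ p, π.ln p z = π.ln G z → π.dir O p ≠ z := fun p h h' =>
    hG (by rw [← h]; exact ((π.dir_spec _ _ (hO p h) _).2 h'.symm).symm)
  have hdz' : ∀ p, π.ln p z = π.ln G z → π.dir O' p ≠ z := fun p h h' =>
    hG (by rw [← h, hz]; exact ((π.dir_spec _ _ (hO' p h) _).2 h'.symm).symm)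
  let T0 : D → D := fun d => if d = z then z else π.dir O' (Q d)
  have hT0 : Function.Injective T0 := by
    intro d d' h
    simp only [T0] at h
    split_ifs at h with h1 h2 h2
    · rw [h1, h2]
    · exact (hdz' _ (hQ d' h2).2 h.symm).elim
    · exact (hdz' _ (hQ d h1).2 h).elim
    · have e : Q d = Q d' := by
        refine π.eq_of_two (hdz' _ (hQ d h1).2) ?_ ((hQ d h1).2.trans (hQ d' h2).2.symm)
        rw [← π.ln_dir (hO' _ (hQ d h1).2), h, π.ln_dir (hO' _ (hQ d' h2).2)]
      rw [(π.dir_spec _ _ (hO _ (hQ d h1).2) d).1 (hQ d h1).1.symm, e]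
      exact ((π.dir_spec _ _ (hO _ (hQ d' h2).2) d').1 (hQ d' h2).1.symm).symm
  let T : Equiv.Perm D := Equiv.ofBijective T0 (Finite.injective_iff_bijective.1 hT0)
  have hT : ∀ d, T d = T0 d := fun _ => rfl
  obtain ⟨q, e, T', M, t1, t2, t3⟩ := hasModel T z (by simp [hT, T0]) (by
    intro d hd h
    simp only [hT, T0, if_neg hd] at h
    have h1 : π.ln O' d = π.ln (Q d) d := (π.dir_spec _ _ (hO' _ (hQ d hd).2) d).2 h.symm
    exact hOO (π.eq_of_two hd ((hQ d hd).1.symm.trans h1.symm) hz)) h4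
  have ez : e.symm (some M.z) = z := by rw [← t2]; simp
  refine π.good_of_relabel e (M.good (π.relabel e) O O' G hOO ?_ ?_ ?_)
  · simpa [APlane.relabel, ez] using hz
  · simpa [APlane.relabel, ez] using hG
  · intro p hp
    simp only [APlane.relabel, ez] at hp ⊢
    obtain ⟨x, x1, x2⟩ := t3 (e (π.dir O p)) (by rw [← t2]; simpa using hdz p hp)
    refine ⟨x, x1, ?_⟩
    rw [← x2, t1, hT]
    simp only [T0, if_neg (hdz p hp)]
    have : Q (π.dir O p) = p := by
      refine π.eq_of_two (hdz p hp) ?_ ((hQ _ (hdz p hp)).2.trans hp.symm)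
      rw [(hQ _ (hdz p hp)).1, π.ln_dir (hO p hp)]
    rw [this]

end Pool.Agent.P.MP_77d020_co
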