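import Pool.Agent.P.MP_77d020_co.Vec
import Pool.Agent.P.MP_77d020_co.Affine

/-! Base cases and the induction on the dimension. -/

namespace Pool.Agent.P.MP_77d020_co

open Module

theorem arr_zero {F V : Type*} [Field F] [AddCommGroup V] [Module F V] [Subsingleton V] :
    Arr F V :=
  ⟨fun _ _ => 0, fun _ _ h => (h (Subsingleton.elim _ _)).elim,
    fun _ _ _ _ h => (h (Subsingleton.elim _ _)).elim, fun _ _ _ _ _ _ => Subsingleton.elim _ _⟩

theorem arr_plane {F : Type*} [Field F] [Finite F] (h3 : 3 ≤ Nat.card F) : Arr F (F × F) := by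
  classical
  have := Fintype.ofFinite F
  let φ : Option F → Dual F (F × F) := fun d =>
    d.elim (LinearMap.fst F F F) fun k => LinearMap.snd F F F - k • LinearMap.fst F F F
  let δ : F × F → Option F := fun u => if u.1 = 0 then none else some (u.2 / u.1)
  have hφ : ∀ u, u ≠ 0 → ∀ d, φ d u = 0 ↔ d = δ u := by
    rintro ⟨x, y⟩ hu (_ | k)
    · simp [φ, δ]
    · by_cases hx : x = 0
      · have : y ≠ 0 := fun h => hu (by simp [hx, h])
        simp [φ, δ, hx, this]
      · simp only [φ, δ, hx, Option.elim, LinearMap.sub_apply, LinearMap.smul_apply,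
          LinearMap.fst_apply, LinearMap.snd_apply, smul_eq_mul, if_false, Option.some.injEq,
          eq_div_iff hx, sub_eq_zero, eq_comm]
  have hpar : ∀ d d' (c : F), φ d = c • φ d' → d = d' := by
    rintro (_ | k) (_ | k') c h
    · rfl
    · have h1 := LinearMap.congr_fun h (0, 1)
      have h2 := LinearMap.congr_fun h (1, 0)
      simp [φ] at h1 h2
      simp [← h1] at h2
    · simpa [φ] using LinearMap.congr_fun h (0, 1)
    · have h1 := LinearMap.congr_fun h (0, 1)
      have h2 := LinearMap.congr_fun h (1, 0)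
      simp [φ] at h1 h2
      simp [← h1, h2]
  have hδ : ∀ u u' : F × F, u' ≠ 0 → δ u = δ u' → ∃ a : F, u = a • u' := by
    rintro ⟨x, y⟩ ⟨x', y'⟩ hu' h
    simp only [δ] at h
    split_ifs at h with h1 h2 h2
    · have : y' ≠ 0 := fun h => hu' (by simp [h2, h])
      exact ⟨y / y', by simp [h1, h2, this]⟩
    · refine ⟨x / x', Prod.ext (by simp [h2]) ?_⟩
      rw [Option.some.injEq, div_eq_div_iff h1 h2] at h
      change y = x / x' * y'
      field_simp
      linear_combination h
  let π : APlane (F × F) (Option F) F :=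
    { ln := fun w d => φ d w
      dir := fun w w' => δ (w - w')
      dir_spec := fun w w' h d => by
        rw [← hφ _ (sub_ne_zero.2 h), map_sub, sub_eq_zero]
      meet := by
        rintro (_ | k) (_ | k') h ⟨x, y⟩ ⟨x', y'⟩
        · exact (h rfl).elim
        · exact ⟨(x, y' - k' * x' + k' * x), by simp [φ], by simp [φ]⟩
        · exact ⟨(x', y - k * x + k * x'), by simp [φ], by simp [φ]⟩
        · have hk : k - k' ≠ 0 := sub_ne_zero.2 fun e => h (congrArg some e)
          refine ⟨(((y' - k' * x') - (y - k * x)) / (k - k'),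
            y - k * x + k * (((y' - k' * x') - (y - k * x)) / (k - k'))), by simp [φ], ?_⟩
          simp only [φ, Option.elim, LinearMap.sub_apply, LinearMap.smul_apply,
            LinearMap.fst_apply, LinearMap.snd_apply, smul_eq_mul]
          field_simp
          ring }
  obtain ⟨c, c1, c2, c3⟩ := π.exists_good
    (by rw [Fintype.card_option, ← Nat.card_eq_fintype_card]; omega) (0, 0) (0, 1) (by simp)
  let ce : F × F → Option F ≃ Option F := fun w =>
    Equiv.ofBijective (c w) (Finite.injective_iff_bijective.1 (c1 w))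
  have hce : ∀ w d, c w ((ce w).symm d) = d := fun w d => (ce w).apply_symm_apply d
  have hne : ∀ w u, u ≠ 0 → φ ((ce w).symm (δ u)) u ≠ 0 := by
    intro w u hu h
    rw [hφ u hu] at h
    exact c2 w _ ((hce w _).trans h.symm)
  refine ⟨fun w u => (φ ((ce w).symm (δ u)) u)⁻¹ • φ ((ce w).symm (δ u)), fun w u hu => ?_,
    fun w u u' a hu hu' h => ?_, fun w w' u hu h h' => ?_⟩
  · simp [hne w u hu]
  · dsimp only at h
    rw [inv_smul_eq_iff₀ (hne w u hu), smul_smul, smul_smul] at h
    exact hδ u u' hu' ((ce w).symm.injective (hpar _ _ _ h))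
  · dsimp only at h h'
    rw [inv_smul_eq_iff₀ (hne w u hu), smul_smul] at h
    have e := hpar _ _ _ h
    by_contra hw
    refine c3 w w' ((ce w).symm (δ u)) hw ?_ (by rw [hce, e, hce])
    simpa [hne w u hu] using h'

theorem arr_cube {F K : Type*} [Field F] [Finite F] [Field K] [Algebra F K] [Module.Finite F K]
    (h2 : Nat.card F = 2) (hd : finrank F K % 2 = 1) : Arr F K := by
  classical
  have := Fintype.ofFinite F
  have : Finite K := Module.finite_of_finite F
  have := Fintype.ofFinite K
  have hc : Fintype.card F = 2 := by rw [← Nat.card_eq_fintype_card, h2]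
  have hF : ∀ c : F, c ^ 2 = c := fun c => by simpa [hc] using FiniteField.pow_card c
  have h2F : (2 : F) = 0 := by simpa [hc] using FiniteField.cast_card_eq_zero F
  have h2K : (2 : K) = 0 := by
    have := congrArg (algebraMap F K) h2F
    rwa [map_ofNat, map_zero] at this
  have hroot : ∀ y : K, y ^ 2 + y + 1 ≠ 0 := by
    intro y hy
    have h0 : y ≠ 0 := by rintro rfl; simp at hy
    have h3 : y ^ 3 = 1 := by linear_combination (y - 1) * hy
    have hcard : Fintype.card K = 2 ^ finrank F K := by
      rw [Module.card_eq_pow_finrank (K := F), hc]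
    have h4 := FiniteField.pow_card_sub_one_eq_one y h0
    have h5 : (Fintype.card K - 1) % 3 = 1 := by
      obtain ⟨n, hn⟩ : ∃ n, finrank F K = 2 * n + 1 := ⟨finrank F K / 2, by omega⟩
      have : 2 ^ finrank F K % 3 = 2 := by
        rw [hn, pow_succ, pow_mul, Nat.mul_mod, Nat.pow_mod]; simp
      omega
    rw [← Nat.div_add_mod (Fintype.card K - 1) 3, pow_add, pow_mul, h3, h5, one_pow, one_mul,
      pow_one] at h4
    rw [h4] at hy
    exact one_ne_zero (by linear_combination hy - h2K : (1 : K) = 0)
  have hcube : ∀ a b : K, a ^ 3 = b ^ 3 → a = b := by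
    intro a b h
    by_cases hb : b = 0
    · subst hb; simpa using h
    · have : (a - b) * ((a / b) ^ 2 + a / b + 1) = 0 := by
        field_simp
        linear_combination h
      exact sub_eq_zero.1 ((mul_eq_zero.1 this).resolve_right (hroot _))
  let w : K →ₗ[F] K :=
    { toFun := fun y => y ^ 2 + y
      map_add' := fun x y => by linear_combination x * y * h2K
      map_smul' := fun c y => by simp [smul_pow, hF] }
  obtain ⟨τ, t1, t2⟩ := (LinearMap.range w).exists_dual_map_eq_bot_of_notMem (x := 1) (by
    rintro ⟨y, hy⟩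
    exact hroot y (by change y ^ 2 + y = 1 at hy; linear_combination hy + h2K)) inferInstance
  have t0 : ∀ y, τ (y ^ 2 + y) = 0 := fun y => by
    have : τ (w y) ∈ (LinearMap.range w).map τ := Submodule.mem_map_of_mem ⟨y, rfl⟩
    rwa [t2, Submodule.mem_bot] at this
  have one : ∀ c : F, c ≠ 0 → c = 1 := fun c hc =>
    mul_left_cancel₀ hc (by linear_combination hF c)
  have t3 : ∀ y, τ (y ^ 2 + y + 1) = 1 := fun y => by rw [map_add, t0, zero_add, one _ t1]
  let α : K → K → K := fun x u => ((x / u) ^ 2 + x / u + 1) / u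
  have hinj : ∀ a b : K, τ ∘ₗ LinearMap.mulLeft F a = τ ∘ₗ LinearMap.mulLeft F b → a = b := by
    intro a b h
    by_contra hab
    have h1 := LinearMap.congr_fun h (a - b)⁻¹
    simp only [LinearMap.comp_apply, LinearMap.mulLeft_apply] at h1
    rw [← sub_eq_zero, ← map_sub, ← sub_mul, mul_inv_cancel₀ (sub_ne_zero.2 hab)] at h1
    exact t1 h1
  have s1 : ∀ x u, u ≠ 0 → τ (α x u * u) = 1 := fun x u hu => by
    simp only [α, div_mul_cancel₀ _ hu, t3]
  refine ⟨fun x u => τ ∘ₗ LinearMap.mulLeft F (α x u), s1, fun x u u' c hu hu' h => ?_,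
    fun x x' u hu h h' => ?_⟩
  · have hc : c = 1 := by
      apply one
      rintro rfl
      have := LinearMap.congr_fun h u
      simp [s1 x u hu] at this
    rw [hc, one_smul] at h
    have e := hinj _ _ h
    refine ⟨1, ?_⟩
    rw [one_smul]
    by_cases hx : x = 0
    · simpa [α, hx] using e
    · have : (x / u + 1) ^ 3 = (x / u' + 1) ^ 3 := by
        have e' : x * α x u = x * α x u' := by rw [e]
        simp only [α, div_eq_mul_inv] at e' ⊢
        linear_combination e' + ((x * u⁻¹) ^ 2 + x * u⁻¹ - (x * u'⁻¹) ^ 2 - x * u'⁻¹) * h2K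
      have := add_right_cancel (hcube _ _ this)
      rwa [div_eq_div_iff hu hu', mul_right_inj' hx, eq_comm] at this
  · have e := hinj _ _ h
    simp only [α, div_left_inj' hu] at e
    have : (x / u - x' / u) * (x / u - x' / u - 1) = 0 := by
      linear_combination e + ((x' / u) ^ 2 + x' / u - x / u - x / u * (x' / u)) * h2K
    rcases mul_eq_zero.1 this with h1 | h1
    · rwa [sub_eq_zero, div_left_inj' hu] at h1
    · have h3 : x - x' = u := by
        field_simp at h1
        linear_combination h1
      simp only [LinearMap.comp_apply, LinearMap.mulLeft_apply] at h'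
      rw [← sub_eq_zero, ← map_sub, ← mul_sub, h3, s1 x u hu] at h'
      exact (one_ne_zero h').elim

/-- The table for dimension four over the field with two elements. -/
def tab : ℕ := 129404151458035803117996706871510228081554946575793913251564024776858258993241161516965428824335817859067017042429892643685533118915609134643954619600935051672268634462037388811346955168510522550203853342762740380424190723898219524173652443038731412003787918513123377477002343949426349055169370834451917937520

def enc (x : Fin 4 → ZMod 2) : ℕ := (x 0).val + 2 * (x 1).val + 4 * (x 2).val + 8 * (x 3).val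

def tabv (w u : Fin 4 → ZMod 2) : Fin 4 → ZMod 2 :=
  fun i => ((tab / 16 ^ (16 * enc w + enc u) / 2 ^ i.val % 2 : ℕ) : ZMod 2)

theorem tab1 : ∀ w u : Fin 4 → ZMod 2, u ≠ 0 → tabv w u ⬝ᵥ u = 1 := by decide +kernel

theorem tab2 : ∀ w u u' : Fin 4 → ZMod 2, u ≠ 0 → u' ≠ 0 → tabv w u = tabv w u' → u = u' := by
  decide +kernel

theorem tab3 : ∀ w w' u : Fin 4 → ZMod 2, u ≠ 0 → tabv w u = tabv w' u →
    tabv w u ⬝ᵥ w = tabv w u ⬝ᵥ w' → w = w' := by decide +kernel

theorem arr_four {F : Type*} [Field F] [Finite F] (h2 : Nat.card F = 2) :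
    Arr F (Fin 4 → F) := by
  classical
  have := Fintype.ofFinite F
  let e : ZMod 2 ≃+* F := ZMod.ringEquivOfPrime F Nat.prime_two
    (by rw [← Nat.card_eq_fintype_card, h2])
  let g : (Fin 4 → F) → Fin 4 → ZMod 2 := fun x i => e.symm (x i)
  have hg : ∀ x y, g x = g y → x = y := fun x y h =>
    funext fun i => e.symm.injective (congrFun h i)
  have hg0 : ∀ x, x ≠ 0 → g x ≠ 0 := fun x hx h => hx (hg _ _ (by rw [h]; ext i; simp [g]))
  let σ : (Fin 4 → F) → (Fin 4 → F) → Dual F (Fin 4 → F) := fun w u =>
    ∑ i, e (tabv (g w) (g u) i) • LinearMap.proj i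
  have hσ : ∀ w u x, σ w u x = e (tabv (g w) (g u) ⬝ᵥ g x) := by
    intro w u x
    simp [σ, dotProduct, g, LinearMap.sum_apply]
  have hinj : ∀ w u w' u', σ w u = σ w' u' → tabv (g w) (g u) = tabv (g w') (g u') := by
    intro w u w' u' h
    ext i
    have := LinearMap.congr_fun h (Pi.single i 1)
    simpa [σ, LinearMap.sum_apply, Pi.single_apply] using this
  have s1 : ∀ w u, u ≠ 0 → σ w u u = 1 := fun w u hu => by
    rw [hσ, tab1 _ _ (hg0 u hu), map_one]
  refine ⟨σ, s1, fun w u u' c hu hu' h => ?_, fun w w' u hu h h' => ?_⟩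
  · have hc : c = 1 := by
      obtain ⟨c, rfl⟩ := e.surjective c
      have hc : ∀ c : ZMod 2, c = 0 ∨ c = 1 := by decide
      rcases hc c with rfl | rfl
      · have := LinearMap.congr_fun h u
        simp [s1 w u hu] at this
      · simp
    rw [hc, one_smul] at h
    exact ⟨1, by rw [one_smul]; exact hg _ _ (tab2 _ _ _ (hg0 u hu) (hg0 u' hu') (hinj _ _ _ _ h))⟩
  · rw [hσ, hσ] at h'
    exact hg _ _ (tab3 _ _ _ (hg0 u hu) (hinj _ _ _ _ h) (e.injective h'))

theorem exists_ext (F : Type) [Field F] [Finite F] (n : ℕ) (hn : n ≠ 0) :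
    ∃ (K : Type) (_ : Field K) (_ : Finite K) (_ : Algebra F K), finrank F K = n := by
  obtain ⟨p, hp⟩ := CharP.exists F
  have : Fact p.Prime := ⟨CharP.char_is_prime F p⟩
  have : NeZero n := ⟨hn⟩
  exact ⟨FiniteField.Extension F p n, inferInstance, inferInstance, inferInstance,
    FiniteField.finrank_extension F p n⟩

theorem arr_double {F K : Type*} [Field F] [Field K] [Finite K] [Algebra F K]
    (h3 : 3 ≤ Nat.card K) (h : Arr F K) : Arr F (K × K) :=
  (arr_plane h3).comp h

/-- The standard symplectic form on `W × Dual W`. -/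
theorem exists_alt (F W : Type*) [Field F] [AddCommGroup W] [Module F W] [FiniteDimensional F W] :
    ∃ A : (W × Dual F W) ≃ₗ[F] Dual F (W × Dual F W), ∀ x, A x x = 0 := by
  let B : (W × Dual F W) →ₗ[F] Dual F (W × Dual F W) :=
    LinearMap.mk₂ F (fun x y => x.2 y.1 - y.2 x.1) (by intros; simp; ring) (by intros; simp; ring)
      (by intros; simp; ring) (by intros; simp; ring)
  have hB : Function.Injective B := by
    rw [injective_iff_map_eq_zero]
    rintro ⟨x, φ⟩ h
    have h1 : ∀ y, φ y = 0 := fun y => by simpa [B] using LinearMap.congr_fun h (y, 0)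
    have h2 : ∀ ψ : Dual F W, ψ x = 0 := fun ψ => by
      simpa [B] using LinearMap.congr_fun h (0, ψ)
    exact Prod.ext ((Module.forall_dual_apply_eq_zero_iff F x).1 h2) (LinearMap.ext h1)
  exact ⟨LinearMap.linearEquivOfInjective B hB Subspace.dual_finrank_eq.symm, fun x => by simp [B]⟩

theorem arr_all (F : Type) [Field F] [Finite F] (d : ℕ) :
    ∀ (V : Type) [AddCommGroup V] [Module F V] [FiniteDimensional F V], finrank F V = d →
      ¬ (Nat.card F = 2 ∧ d = 2) → Arr F V := by
  induction d using Nat.strong_induction_on with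
  | _ d ih =>
  intro V _ _ _ hV hne
  have h1 : 2 ≤ Nat.card F := Finite.one_lt_card
  by_cases h0 : d = 0
  · have : Subsingleton V := Module.finrank_zero_iff.1 (hV.trans h0)
    exact arr_zero
  by_cases hodd : d % 2 = 1
  · by_cases h2 : Nat.card F = 2
    · obtain ⟨K, _, _, _, hK⟩ := exists_ext F d h0
      exact (arr_cube (K := K) h2 (by rw [hK, hodd])).of_finrank (hK.trans hV.symm)
    · obtain ⟨A, hA⟩ := exists_alt F (Fin (d / 2) → F)
      have hr : finrank F ((Fin (d / 2) → F) × Dual F (Fin (d / 2) → F)) = d - 1 := by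
        rw [finrank_prod, Subspace.dual_finrank_eq, finrank_fin_fun]; omega
      refine (Arr.step (gadget (by omega)) A hA
        (ih (d - 1) (by omega) _ hr fun h => h2 h.1)).of_finrank ?_
      rw [finrank_prod, hr, finrank_self]; omega
  by_cases h4 : Nat.card F = 2 ∧ d = 4
  · exact (arr_four h4.1).of_finrank (by rw [finrank_fin_fun, hV, h4.2])
  obtain ⟨K, _, _, _, hK⟩ := exists_ext F (d / 2) (by omega)
  have hc : 3 ≤ Nat.card K := by
    rw [Module.natCard_eq_pow_finrank (K := F), hK]
    by_cases h2 : Nat.card F = 2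
    · have : 2 ≤ d / 2 := by omega
      calc 3 ≤ 2 ^ 2 := by norm_num
        _ ≤ 2 ^ (d / 2) := Nat.pow_le_pow_right (by norm_num) this
        _ = _ := by rw [h2]
    · exact (by omega : 3 ≤ Nat.card F).trans (Nat.le_self_pow (by omega) _)
  refine (arr_double hc (ih (d / 2) (by omega) K hK (by omega))).of_finrank ?_
  rw [finrank_prod, hK]; omega

end Pool.Agent.P.MP_77d020_co
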