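import Pool.Agent.P.MP_77d020_co.Affine

/-! Symmetric designs: replication number, complements, and projective planes. -/

namespace Pool.Agent.P.MP_77d020_co

open Finset

variable {P : Type*} [Fintype P] [DecidableEq P]

/-- The arrangement property for a family of blocks and a fixed block. -/
def Arrangeable (Blk : Finset (Finset P)) (B0 : Finset P) : Prop :=
  ∃ f : P → P → Finset P,
    (∀ j : P, j ∉ B0 → B0.image (fun i => f i j) = Blk.filter (fun B => j ∈ B)) ∧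
    (∀ i ∈ B0, (univ.filter (fun j => j ∉ B0)).image (fun j => f i j)
      = Blk.filter (fun B => B ≠ B0 ∧ i ∉ B))

theorem Arrangeable.of_compl {Blk : Finset (Finset P)} {B0 : Finset P}
    (h : Arrangeable (Blk.image compl) B0ᶜ) : Arrangeable Blk B0 := by
  obtain ⟨f, h1, h2⟩ := h
  have hm : ∀ B : Finset P, Bᶜ ∈ Blk.image compl ↔ B ∈ Blk := fun B => by
    simp only [mem_image, compl_inj_iff, exists_eq_right]
  refine ⟨fun i j => (f j i)ᶜ, fun j hj => ?_, fun i hi => ?_⟩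
  · ext B
    have := congrArg (Bᶜ ∈ ·) (h2 j (mem_compl.2 hj))
    simp only [mem_filter, hm, mem_image (f := fun i => f j i), mem_univ, true_and, mem_compl,
      not_not, eq_iff_iff, ne_eq, compl_inj_iff] at this
    simp only [mem_image, mem_filter, compl_eq_iff_isCompl, ← eq_compl_iff_isCompl, this]
    constructor
    · exact fun h => ⟨h.1, h.2.2⟩
    · rintro ⟨h, h'⟩
      exact ⟨h, fun e => hj (e ▸ h'), h'⟩
  · ext B
    have := congrArg (Bᶜ ∈ ·) (h1 i (by simpa using hi))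
    simp only [mem_filter, hm, mem_image (f := fun j => f j i), mem_compl, eq_iff_iff] at this
    simp only [mem_image, mem_filter, mem_univ, true_and, compl_eq_iff_isCompl,
      ← eq_compl_iff_isCompl, this]
    constructor
    · rintro ⟨h, h'⟩
      exact ⟨h, fun e => h' (e ▸ hi), h'⟩
    · exact fun h => ⟨h.1, h.2.2⟩

theorem replication {Blk : Finset (Finset P)} {k lam : ℕ} (hb : Blk.card = Fintype.card P)
    (hk : ∀ B ∈ Blk, B.card = k)
    (hl : ∀ x y : P, x ≠ y → (Blk.filter (fun B => x ∈ B ∧ y ∈ B)).card = lam) (h2 : 2 ≤ k)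
    (x : P) : (Blk.filter (fun B => x ∈ B)).card = k := by
  have key : ∀ x : P, (Blk.filter (fun B => x ∈ B)).card * (k - 1) =
      (Fintype.card P - 1) * lam := by
    intro x
    have := card_mul_eq_card_mul (s := Blk.filter (fun B => x ∈ B)) (t := univ.erase x)
      (fun B y => y ∈ B) (m := k - 1) (n := lam) ?_ ?_
    · rwa [card_erase_of_mem (mem_univ x), card_univ] at this
    · intro B hB
      rw [mem_filter] at hB
      have : bipartiteAbove (fun B y => y ∈ B) (univ.erase x) B = B.erase x := by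
        ext y; simp [bipartiteAbove]
      rw [this, card_erase_of_mem hB.2, hk B hB.1]
    · intro y hy
      rw [← hl x y (ne_of_mem_erase hy).symm]
      congr 1
      ext B; simp [bipartiteBelow, and_assoc]
  have hc : ∀ y : P, (Blk.filter (fun B => y ∈ B)).card = (Blk.filter (fun B => x ∈ B)).card :=
    fun y => Nat.eq_of_mul_eq_mul_right (by omega : 0 < k - 1) ((key y).trans (key x).symm)
  have := card_mul_eq_card_mul (s := Blk) (t := (univ : Finset P))
    (fun B y => y ∈ B) (m := k) (n := (Blk.filter (fun B => x ∈ B)).card) ?_ ?_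
  · rw [hb, card_univ] at this
    have hpos : 0 < Fintype.card P := Fintype.card_pos_iff.2 ⟨x⟩
    exact (Nat.eq_of_mul_eq_mul_left hpos this).symm
  · intro B hB
    rw [← hk B hB]; congr 1; ext y; simp [bipartiteAbove]
  · intro y _
    rw [← hc y]; rfl

theorem plane_arrangeable {Blk : Finset (Finset P)} {k : ℕ} (hb : Blk.card = Fintype.card P)
    (hk : ∀ B ∈ Blk, B.card = k)
    (hl : ∀ x y : P, x ≠ y → (Blk.filter (fun B => x ∈ B ∧ y ∈ B)).card = 1) (h4 : 4 ≤ k)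
    {B0 : Finset P} (h0 : B0 ∈ Blk) : Arrangeable Blk B0 := by
  have hr := replication hb hk hl (by omega)
  have hj : ∀ x y : P, ∃ B, x ≠ y → B ∈ Blk ∧ x ∈ B ∧ y ∈ B ∧
      ∀ B' ∈ Blk, x ∈ B' → y ∈ B' → B' = B := by
    intro x y
    by_cases h : x = y
    · exact ⟨∅, fun h' => (h' h).elim⟩
    obtain ⟨B, hB⟩ := card_eq_one.1 (hl x y h)
    have h1 : B ∈ Blk.filter (fun B => x ∈ B ∧ y ∈ B) := by rw [hB]; simp
    rw [mem_filter] at h1
    refine ⟨B, fun _ => ⟨h1.1, h1.2.1, h1.2.2, fun B' h2 h3 h4 => ?_⟩⟩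
    rw [← mem_singleton, ← hB, mem_filter]; exact ⟨h2, h3, h4⟩
  choose J hJ using hj
  have uniq : ∀ x y, x ≠ y → ∀ B ∈ Blk, ∀ B' ∈ Blk, x ∈ B → y ∈ B → x ∈ B' → y ∈ B' → B = B' :=
    fun x y h B hB B' hB' a1 a2 a3 a4 =>
      ((hJ x y h).2.2.2 B hB a1 a2).trans ((hJ x y h).2.2.2 B' hB' a3 a4).symm
  have himg : ∀ x, ∀ B ∈ Blk, x ∉ B → B.image (J x) = Blk.filter (fun C => x ∈ C) := by
    intro x B hB hx
    have hne : ∀ y ∈ B, x ≠ y := fun y hy h => hx (h ▸ hy)
    apply eq_of_subset_of_card_le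
    · intro C hC
      obtain ⟨y, hy, rfl⟩ := mem_image.1 hC
      exact mem_filter.2 ⟨(hJ x y (hne y hy)).1, (hJ x y (hne y hy)).2.1⟩
    · rw [hr, card_image_of_injOn, hk B hB]
      intro y hy y' hy' h
      by_contra hyy
      have := uniq y y' hyy B hB _ (hJ x y (hne y hy)).1 hy hy' (hJ x y (hne y hy)).2.2.1
        (h ▸ (hJ x y' (hne y' hy')).2.2.1)
      exact hx (this ▸ (hJ x y (hne y hy)).2.1)
  have hmeet : ∀ B ∈ Blk, ∀ B' ∈ Blk, ∃ p, p ∈ B ∧ p ∈ B' := by
    intro B hB B' hB'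
    by_cases hs : B' ⊆ B
    · obtain ⟨p, hp⟩ : B'.Nonempty := card_pos.1 (by rw [hk B' hB']; omega)
      exact ⟨p, hs hp, hp⟩
    · obtain ⟨x, hx, hx'⟩ := not_subset.1 hs
      have : B' ∈ B.image (J x) := by rw [himg x B hB hx']; exact mem_filter.2 ⟨hB', hx⟩
      obtain ⟨y, hy, rfl⟩ := mem_image.1 this
      exact ⟨y, hy, (hJ x y fun h => hx' (h ▸ hy)).2.2.1⟩
  have hne : ∀ (w : {w // w ∉ B0}) (d : {d // d ∈ B0}), w.1 ≠ d.1 :=
    fun w d h => w.2 (h ▸ d.2)
  have hdir : ∀ w w' : {w // w ∉ B0}, ∃ d : {d // d ∈ B0}, w ≠ w' → d.1 ∈ J w w' := by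
    intro w w'
    by_cases h : w = w'
    · obtain ⟨p, hp, -⟩ := hmeet B0 h0 B0 h0
      exact ⟨⟨p, hp⟩, fun h' => (h' h).elim⟩
    · obtain ⟨p, hp, hp'⟩ := hmeet B0 h0 _ (hJ w w' fun h' => h (Subtype.ext h')).1
      exact ⟨⟨p, hp⟩, fun _ => hp'⟩
  choose dir hdir using hdir
  have one : ∀ B ∈ Blk, ∀ (w : {w // w ∉ B0}) (d d' : {d // d ∈ B0}),
      w.1 ∈ B → d.1 ∈ B → d'.1 ∈ B → d = d' := by
    intro B hB w d d' a1 a2 a3
    by_contra h
    exact w.2 (uniq d d' (fun h' => h (Subtype.ext h')) B hB B0 h0 a2 a3 d.2 d'.2 ▸ a1)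
  let π : APlane {w // w ∉ B0} {d // d ∈ B0} (Finset P) :=
    { ln := fun w d => J w d
      dir := dir
      dir_spec := by
        intro w w' h d
        have h' : w.1 ≠ w'.1 := fun e => h (Subtype.ext e)
        have a := hJ w w' h'
        have b := hJ w d (hne w d)
        have b' := hJ w' d (hne w' d)
        constructor
        · intro e
          refine one _ a.1 w _ _ a.2.1 ?_ (hdir w w' h)
          rw [← a.2.2.2 _ b.1 b.2.1 (e ▸ b'.2.1)]; exact b.2.2.1
        · rintro rfl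
          exact (b.2.2.2 _ a.1 a.2.1 (hdir w w' h)).symm.trans
            (b'.2.2.2 _ a.1 a.2.2.1 (hdir w w' h))
      meet := by
        intro d d' h w w'
        have b := hJ w d (hne w d)
        have b' := hJ w' d' (hne w' d')
        obtain ⟨p, hp, hp'⟩ := hmeet _ b.1 _ b'.1
        have hp0 : p ∉ B0 := fun hp0 =>
          h ((one _ b.1 w d ⟨p, hp0⟩ b.2.1 b.2.2.1 hp).trans
            (one _ b'.1 w' ⟨p, hp0⟩ d' b'.2.1 hp' b'.2.2.1))
        exact ⟨⟨p, hp0⟩, ((hJ p d (hne ⟨p, hp0⟩ d)).2.2.2 _ b.1 hp b.2.2.1).symm,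
          ((hJ p d' (hne ⟨p, hp0⟩ d')).2.2.2 _ b'.1 hp' b'.2.2.1).symm⟩ }
  have hk0 := hk B0 h0
  -- the number of blocks missing a point
  have hmiss : ∀ i ∈ B0, (Blk.filter (fun B => B ≠ B0 ∧ i ∉ B)).card =
      (univ.filter (fun j => j ∉ B0)).card := by
    intro i hi
    have e1 : Blk.filter (fun B => B ≠ B0 ∧ i ∉ B) = Blk.filter (fun B => ¬ i ∈ B) := by
      ext B
      simp only [mem_filter, and_congr_right_iff]
      exact fun _ => ⟨fun h => h.2, fun h => ⟨fun e => h (e ▸ hi), h⟩⟩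
    have e2 := card_filter_add_card_filter_not (s := Blk) (fun B => i ∈ B)
    have e3 := card_filter_add_card_filter_not (s := (univ : Finset P)) (fun j => j ∈ B0)
    rw [filter_mem_eq_inter, univ_inter, card_univ] at e3
    rw [hr] at e2
    rw [e1]; omega
  -- two affine points
  obtain ⟨O, O', hOO⟩ : ∃ O O' : {w // w ∉ B0}, O ≠ O' := by
    obtain ⟨i, hi⟩ : B0.Nonempty := card_pos.1 (by omega)
    obtain ⟨B, hB, hB0⟩ : ∃ B ∈ Blk.filter (fun B => i ∈ B), B ≠ B0 :=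
      exists_mem_ne (by rw [hr]; omega) B0
    rw [mem_filter] at hB
    obtain ⟨x, hx, y, hy, hxy⟩ := one_lt_card.1
      (show 1 < (B.erase i).card by rw [card_erase_of_mem hB.2, hk B hB.1]; omega)
    have hn : ∀ x ∈ B.erase i, x ∉ B0 := fun x hx h =>
      hB0 (uniq x i (ne_of_mem_erase hx) B hB.1 B0 h0 (mem_of_mem_erase hx) hB.2 h hi)
    exact ⟨⟨x, hn x hx⟩, ⟨y, hn y hy⟩, fun h => hxy (congrArg Subtype.val h)⟩
  obtain ⟨c, c1, c2, c3⟩ := π.exists_good (by simpa [hk0] using h4) O O' hOO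
  let ce : {w // w ∉ B0} → {d // d ∈ B0} ≃ {d // d ∈ B0} := fun w =>
    Equiv.ofBijective (c w) (Finite.injective_iff_bijective.1 (c1 w))
  have hce : ∀ w d, c w ((ce w).symm d) = d := fun w d => (ce w).apply_symm_apply d
  refine ⟨fun i j => if h : i ∈ B0 ∧ j ∉ B0 then J j ((ce ⟨j, h.2⟩).symm ⟨i, h.1⟩).1 else ∅,
    fun j hj => ?_, fun i hi => ?_⟩
  · rw [← himg j B0 h0 hj]
    ext B
    simp only [mem_image]
    constructor
    · rintro ⟨i, hi, rfl⟩
      rw [dif_pos ⟨hi, hj⟩]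
      exact ⟨_, Subtype.prop _, rfl⟩
    · rintro ⟨d, hd, rfl⟩
      refine ⟨(ce ⟨j, hj⟩ ⟨d, hd⟩).1, Subtype.prop _, ?_⟩
      rw [dif_pos ⟨Subtype.prop _, hj⟩]
      simp
  · apply eq_of_subset_of_card_le
    · intro B hB
      obtain ⟨j, hj, rfl⟩ := mem_image.1 hB
      have hj' : j ∉ B0 := (mem_filter.1 hj).2
      simp only [dif_pos (And.intro hi hj')]
      have b := hJ j _ (hne ⟨j, hj'⟩ ((ce ⟨j, hj'⟩).symm ⟨i, hi⟩))
      refine mem_filter.2 ⟨b.1, fun e => hj' (e ▸ b.2.1), fun h => ?_⟩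
      have := one _ b.1 ⟨j, hj'⟩ _ ⟨i, hi⟩ b.2.1 b.2.2.1 h
      exact c2 ⟨j, hj'⟩ _ ((hce _ _).trans this.symm)
    · rw [hmiss i hi, card_image_of_injOn]
      intro j hj j' hj' h
      have hj1 : j ∉ B0 := (mem_filter.1 (mem_coe.1 hj)).2
      have hj2 : j' ∉ B0 := (mem_filter.1 (mem_coe.1 hj')).2
      simp only [dif_pos (And.intro hi hj1), dif_pos (And.intro hi hj2)] at h
      have b := hJ j _ (hne ⟨j, hj1⟩ ((ce ⟨j, hj1⟩).symm ⟨i, hi⟩))
      have b' := hJ j' _ (hne ⟨j', hj2⟩ ((ce ⟨j', hj2⟩).symm ⟨i, hi⟩))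
      have e := one _ b.1 ⟨j, hj1⟩ _ _ b.2.1 b.2.2.1 (h ▸ b'.2.2.1)
      by_contra hjj
      refine c3 ⟨j, hj1⟩ ⟨j', hj2⟩ ((ce ⟨j, hj1⟩).symm ⟨i, hi⟩)
        (fun e' => hjj (congrArg Subtype.val e')) ?_ ?_
      · change J j _ = J j' _
        rw [h, e]
      · rw [hce, e, hce]

theorem planes {Blk : Finset (Finset P)} {k lam : ℕ} (hb : Blk.card = Fintype.card P)
    (hk : ∀ B ∈ Blk, B.card = k)
    (hl : ∀ x y : P, x ≠ y → (Blk.filter (fun B => x ∈ B ∧ y ∈ B)).card = lam)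
    (h3 : lam + 2 < k) (h1 : lam = 1 ∨ Fintype.card P + lam = 2 * k + 1)
    {B0 : Finset P} (h0 : B0 ∈ Blk) : Arrangeable Blk B0 := by
  rcases h1 with rfl | h1
  · exact plane_arrangeable hb hk hl (by omega) h0
  have hr := replication hb hk hl (by omega)
  apply Arrangeable.of_compl
  refine plane_arrangeable (k := Fintype.card P - k) ?_ ?_ ?_ (by omega)
    (mem_image_of_mem _ h0)
  · rw [card_image_of_injective _ compl_injective, hb]
  · intro B hB
    obtain ⟨C, hC, rfl⟩ := mem_image.1 hB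
    rw [card_compl, hk C hC]
  · intro x y hxy
    rw [filter_image, card_image_of_injective _ compl_injective]
    have e1 := card_filter_add_card_filter_not (s := Blk) (fun B => x ∈ B ∨ y ∈ B)
    have e2 := card_union_add_card_inter (Blk.filter (fun B => x ∈ B))
      (Blk.filter (fun B => y ∈ B))
    rw [← filter_or, ← filter_and, hr, hr, hl x y hxy] at e2
    have e3 : Blk.filter (fun B => x ∈ Bᶜ ∧ y ∈ Bᶜ) = Blk.filter (fun B => ¬ (x ∈ B ∨ y ∈ B)) := by
      ext B; simp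
    rw [e3]; omega

end Pool.Agent.P.MP_77d020_co
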