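import Pool.Agent.P.MP_77d020_co.Model

/-! Three families of generic models. -/

namespace Pool.Agent.P.MP_77d020_co

/-- An idempotent Latin square with a distinguished symbol, and the geometric bijection `b`. -/
structure LD (F : Type*) where
  L : F → F → F
  z : F
  a : F
  θ : F → F
  θi : F → F
  b : F → F
  bi : F → F
  row : ∀ x k l, L x k = L x l → k = l
  col : ∀ k x y, L x k = L y k → x = y
  idem : ∀ x, L x x = x
  az : a ≠ z
  θz : ∀ x, x ≠ z → θ x ≠ z
  Lθ : ∀ x, x ≠ z → L x (θ x) = z
  θiθ : ∀ x, x ≠ z → θi (θ x) = x
  θθi : ∀ k, k ≠ z → θ (θi k) = k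
  θiz : ∀ k, k ≠ z → θi k ≠ z
  bz : ∀ x, x ≠ z → b x ≠ z
  bib : ∀ x, x ≠ z → bi (b x) = x
  bbi : ∀ k, k ≠ z → b (bi k) = k
  biz : ∀ k, k ≠ z → bi k ≠ z
  bθ : ∀ x, x ≠ z → x ≠ a → b x ≠ θ x
  bne : ∀ x, x ≠ z → x ≠ a → b x ≠ x

namespace LD

variable {F : Type*} [DecidableEq F] (X : LD F)

def bf (x : F) : Option F := if x = X.z then none else some (X.b x)
def jf (x : F) : Option F :=
  if x = X.z then some (X.θ X.a) else if x = X.a then none else some (X.θ x)
def Lc (x k : F) : Option F := if x = k then none else some (X.L x k)

omit [DecidableEq F] in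
theorem Lne (x k : F) (h : x ≠ k) : X.L x k ≠ x := fun h' => h (X.row x x k (by rw [X.idem, h']))
omit [DecidableEq F] in
theorem Lne' (x k : F) (h : x ≠ k) : X.L x k ≠ k := fun h' => h (X.col k x k (by rw [X.idem, h']))
omit [DecidableEq F] in
theorem θne (x : F) (h : x ≠ X.z) : X.θ x ≠ x := fun h' => h (by
  have := X.Lθ x h
  rw [h', X.idem] at this; exact this)
omit [DecidableEq F] in
theorem Lz (x k : F) (h : x ≠ X.z) (h' : X.L x k = X.z) : k = X.θ x :=
  X.row x _ _ (h'.trans (X.Lθ x h).symm)

/-- First family. -/
def modelI (h1 : ∀ x, x ≠ X.z → X.L X.z (X.θ x) = x) : Model F where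
  z := X.z
  a := X.a
  bf := X.bf
  jf := X.jf
  Lc := X.Lc
  Oc x k := if x = k then none else
    if x = X.z then (if X.bi k = X.a then some X.z else some (X.bi k))
    else if x ≠ X.a ∧ X.b x = k then some X.z else some x
  Pc x k := if k ≠ X.θ X.a ∧ x = X.z then some X.z
    else if k ≠ X.θ X.a ∧ x = X.θi k then some x else X.Lc x k
  gc x := X.Lc x X.z
  mY k := if k = X.z then X.a else if k = X.θ X.a then X.z else X.L X.z k
  mX x k := X.L x k
  bf_inj := by have := X.bib; unfold bf; grind
  bf_none := by simp [bf]
  jf_none := by have := X.az; unfold jf; grind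
  L_inj := by have := X.col; unfold Lc; grind
  L_ne := by have := X.Lne'; unfold Lc; grind
  O_inj := by
    have := X.bib; have := X.bbi; have := X.bz; have := X.biz; have := X.az; grind
  O_ne := by
    have := X.bib; have := X.bbi; have := X.bz; have := X.biz; have := X.az; have := X.bne; grind
  P_inj := by
    intro k hk
    have := X.col k; have := X.θθi k hk; have := X.θiz k hk; have := h1 _ this
    have := X.Lθ _ (X.θiz k hk); have := X.θne _ (X.θiz k hk)
    unfold Lc; grind
  P_ne := by
    intro k hk x
    have := X.Lne' x k; have := X.θθi k hk; have := X.θne _ (X.θiz k hk)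
    unfold Lc; grind
  g_inj := by have := X.col; unfold Lc; grind
  g_ne := by have := X.Lne'; unfold Lc; grind
  P_eq := by have := X.θθi; unfold jf; grind
  mY_inj := by
    have := X.row X.z; have := X.idem X.z; have := h1 _ X.az; have := X.az; grind
  mX_inj := fun x _ => X.row x
  ptO_inj := by
    have := X.bib; have := X.bbi; have := X.bz; have := X.biz; have := X.az; grind
  ptO_ne := by
    have := X.bib; have := X.bbi; have := X.bz; have := X.biz; have := X.az; grind
  ptY_inj := by
    intro k0 hk0
    have := X.row X.z; have := X.idem X.z; have := X.θiz k0 hk0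
    unfold Lc; grind
  ptY_ne := by
    intro k0 hk0
    have := X.row X.z; have := X.idem X.z; have := X.θiz k0 hk0
    have := X.θθi k0 hk0; have := h1 _ (X.θiz k0 hk0)
    unfold Lc; grind
  ptP_inj := by
    have := X.row X.a; have := X.idem X.a; have := X.az; have := X.θθi
    unfold Lc; grind
  ptP_ne := by
    have := X.row X.a; have := X.idem X.a; have := X.az; have := X.θθi
    unfold Lc; grind
  ptQ_inj := by
    intro x b0 hx
    have := X.row x; have := X.idem x; have := X.az; have := X.θiθ x hx
    have := X.θiθ _ X.az; have := X.Lθ x hx; have := X.bθ x hx; have := X.bne x hx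
    have := X.bz x hx; have := X.θz x hx; have := X.θne x hx
    unfold Lc bf jf; grind
  ptQ_ne := by
    intro x b0 hx
    have := X.row x; have := X.idem x; have := X.az; have := X.θiθ x hx
    have := X.θiθ _ X.az; have := X.Lθ x hx; have := X.bθ x hx; have := X.bne x hx
    have := X.bz x hx; have := X.θz x hx; have := X.θne x hx
    unfold Lc bf jf; grind
  ptX_inj := by
    intro x b0 hx
    have := X.row x; have := X.idem x
    unfold Lc bf; grind
  ptX_ne := by
    intro x b0 hx
    have := X.row x; have := X.idem x
    unfold Lc bf; grind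

/-- Second family, for a quadrangle with collinear diagonal points. -/
def modelF (h1 : ∀ x, x ≠ X.z → X.L X.z (X.θ x) = X.L x X.z) (h2 : X.b X.a = X.θ X.a) :
    Model F where
  z := X.z
  a := X.a
  bf := X.bf
  jf := X.jf
  Lc := X.Lc
  Oc x k := if x = k then none else
    if x = X.z then some (X.bi k) else if X.b x = k then some X.z else some x
  Pc x k := if x = X.z then some X.z
    else if x = X.θi k then some (X.L X.z k) else X.Lc x k
  gc x := if x = X.z then none else some x
  mY k := X.L X.z k
  mX x k := if x = X.a ∧ k = X.z then X.z else if x = X.a ∧ k = X.θ X.a then X.L X.a X.z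
    else X.L x k
  bf_inj := by have := X.bib; unfold bf; grind
  bf_none := by simp [bf]
  jf_none := by have := X.az; unfold jf; grind
  L_inj := by have := X.col; unfold Lc; grind
  L_ne := by have := X.Lne'; unfold Lc; grind
  O_inj := by
    have := X.bib; have := X.bbi; have := X.bz; have := X.biz; have := X.az
    have := X.bne; have := X.θne _ X.az; grind
  O_ne := by
    have := X.bib; have := X.bbi; have := X.bz; have := X.biz; have := X.az; have := X.bne
    have := X.θne _ X.az; grind
  P_inj := by
    intro k hk
    have := X.col k; have := X.θθi k hk; have := X.θiz k hk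
    have := X.Lθ _ (X.θiz k hk); have := X.θne _ (X.θiz k hk)
    unfold Lc; grind
  P_ne := by
    intro k hk x
    have := X.Lne' x k; have := X.Lne' X.z k
    unfold Lc; grind
  g_inj := by grind
  g_ne := by grind
  P_eq := by have := X.θθi; unfold jf; grind
  mY_inj := X.row X.z
  mX_inj := by
    intro x hx
    have := X.row x; have := X.Lθ x hx; have := X.θz x hx; grind
  ptO_inj := by
    have := X.bib; have := X.bbi; have := X.bz; have := X.biz; have := X.az; grind
  ptO_ne := by
    have := X.biz; have := X.idem X.z; grind
  ptY_inj := by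
    intro k0 hk0
    have := X.row X.z; have := X.idem X.z
    unfold Lc; grind
  ptY_ne := by
    intro k0 hk0
    have := X.row X.z; have := X.idem X.z
    unfold Lc; grind
  ptP_inj := by
    have := X.row X.a; have := X.idem X.a; have := X.az; have := X.θθi
    have := h1 _ X.az; have := X.θiθ _ X.az; have := X.bz _ X.az
    unfold Lc; grind
  ptP_ne := by
    have := X.row X.a; have := X.idem X.a; have := X.az; have := X.θθi
    have := h1 _ X.az; have := X.θiθ _ X.az; have := X.bz _ X.az; have := X.Lθ _ X.az
    have := X.θz _ X.az
    unfold Lc; grind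
  ptQ_inj := by
    intro x b0 hx
    have := X.row x; have := X.idem x; have := X.az; have := X.θiθ x hx
    have := X.Lθ x hx; have := X.bθ x hx; have := X.bne x hx
    have := X.bz x hx; have := X.θz x hx; have := X.θne x hx; have := h1 x hx
    unfold Lc bf jf; grind
  ptQ_ne := by
    intro x b0 hx
    have := X.row x; have := X.idem x; have := X.az; have := X.θiθ x hx
    have := X.Lθ x hx; have := X.bθ x hx; have := X.bne x hx
    have := X.bz x hx; have := X.θz x hx; have := X.θne x hx; have := h1 x hx
    unfold Lc bf jf; grind
  ptX_inj := by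
    intro x b0 hx
    have := X.row x; have := X.idem x
    unfold Lc bf; grind
  ptX_ne := by
    intro x b0 hx
    have := X.row x; have := X.idem x
    unfold Lc bf; grind

/-- Third family, for a quadrangle whose diagonal points are not collinear. -/
def modelN (h1 : ∀ x, x ≠ X.z → X.L X.z (X.θ x) = X.L x X.z) (x0 : F) (h0 : x0 ≠ X.z)
    (h0a : x0 ≠ X.a) (h2 : X.b X.a = X.θ x0) (h3 : X.L x0 X.z = X.a)
    (h4 : X.L X.a (X.θ x0) = x0) : Model F where
  z := X.z
  a := X.a
  bf := X.bf
  jf := X.jf
  Lc := X.Lc
  Oc x k := if x = k then none else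
    if x = X.z then (if X.bi k = X.a then some X.z else some (X.bi k))
    else if x ≠ X.a ∧ X.b x = k then some X.z else some x
  Pc x k := if k = X.θ x0 then
      (if x = X.a then some X.z else if x = x0 then some x0 else X.Lc x k)
    else if x = X.z then some X.z
    else if x = X.θi k then some (X.L X.z k) else X.Lc x k
  gc x := if x = X.z then none else if x = X.a then some x0 else if x = x0 then some X.a
    else some x
  mY k := if k = X.z then X.a else if k = X.θ x0 then X.z else X.L X.z k
  mX x k := if x = X.a ∧ k = X.z then x0 else if x = X.a ∧ k = X.θ x0 then X.L X.a X.z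
    else X.L x k
  bf_inj := by have := X.bib; unfold bf; grind
  bf_none := by simp [bf]
  jf_none := by have := X.az; unfold jf; grind
  L_inj := by have := X.col; unfold Lc; grind
  L_ne := by have := X.Lne'; unfold Lc; grind
  O_inj := by
    have := X.bib; have := X.bbi; have := X.bz; have := X.biz; have := X.az; grind
  O_ne := by
    have := X.bib; have := X.bbi; have := X.bz; have := X.biz; have := X.az; have := X.bne; grind
  P_inj := by
    intro k hk
    have := X.col k; have := X.θθi k hk; have := X.θiz k hk
    have := X.Lθ _ (X.θiz k hk); have := X.θne _ (X.θiz k hk)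
    have := X.Lθ _ h0; have := X.θne _ h0; have := X.idem X.a; have := X.idem k
    unfold Lc; grind
  P_ne := by
    intro k hk x
    have := X.Lne' x k; have := X.Lne' X.z k; have := X.θne _ h0
    unfold Lc; grind
  g_inj := by have := X.az; grind
  g_ne := by have := X.az; grind
  P_eq := by have := X.θθi; unfold jf; grind
  mY_inj := by
    have := X.row X.z; have := X.idem X.z; have := h1 _ h0; have := X.az; grind
  mX_inj := by
    intro x hx
    have := X.row x; have := X.θz x0 h0; grind
  ptO_inj := by
    have := X.bib; have := X.bbi; have := X.bz; have := X.biz; have := X.az; grind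
  ptO_ne := by
    have := X.bib; have := X.bbi; have := X.bz; have := X.biz; have := X.az; grind
  ptY_inj := by
    intro k0 hk0
    have := X.row X.z; have := X.idem X.z; have := X.az
    unfold Lc; grind
  ptY_ne := by
    intro k0 hk0
    have := X.row X.z; have := X.idem X.z; have := X.az
    unfold Lc; grind
  ptP_inj := by
    have := X.row X.a; have := X.idem X.a; have := X.az; have := X.θθi
    have := h1 _ X.az; have := X.θiθ _ X.az; have := X.θiθ _ h0; have := X.Lθ _ X.az
    have := X.θz _ X.az
    unfold Lc; grind
  ptP_ne := by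
    have := X.row X.a; have := X.idem X.a; have := X.az; have := X.θθi
    have := h1 _ X.az; have := X.θiθ _ X.az; have := X.θiθ _ h0; have := X.Lθ _ X.az
    have := X.θz _ X.az; have := X.θz _ h0
    unfold Lc; grind
  ptQ_inj := by
    intro x b0 hx
    have := X.row x; have := X.idem x; have := X.az; have := X.θiθ x hx
    have := X.Lθ x hx; have := X.bθ x hx; have := X.bne x hx; have := X.θiθ _ h0
    have := X.bz x hx; have := X.θz x hx; have := X.θne x hx; have := h1 x hx
    have := X.idem X.a
    unfold Lc bf jf; grind
  ptQ_ne := by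
    intro x b0 hx
    have := X.row x; have := X.idem x; have := X.az; have := X.θiθ x hx
    have := X.Lθ x hx; have := X.bθ x hx; have := X.bne x hx; have := X.θiθ _ h0
    have := X.bz x hx; have := X.θz x hx; have := X.θne x hx; have := h1 x hx
    have := X.idem X.a
    unfold Lc bf jf; grind
  ptX_inj := by
    intro x b0 hx
    have := X.row x; have := X.idem x
    unfold Lc bf; grind
  ptX_ne := by
    intro x b0 hx
    have := X.row x; have := X.idem x
    unfold Lc bf; grind

end LD

end Pool.Agent.P.MP_77d020_co
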