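import Pool.Agent.P.MP_77d020_co.Inst

/-! Small models, explicit Latin squares and the ordering lemma. -/

namespace Pool.Agent.P.MP_77d020_co

/-- The model for order three. -/
def model3 : Model (Fin 3) where
  z := 2
  a := 1
  bf := ![some 0, some 1, none]
  jf := ![some 1, none, some 0]
  Lc x k := ![![some 1, some 0, none], ![some 2, none, some 0], ![none, some 2, some 1]] x k
  Oc x k := ![![some 2, some 2, none], ![some 1, none, some 0], ![none, some 0, some 1]] x k
  Pc x k := ![![some 1, some 0, some 0], ![some 2, none, some 1], ![none, some 2, none]] x k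
  gc := ![none, some 1, some 0]
  mY := ![1, 0, 2]
  mX x k := ![![1, 0, 2], ![2, 0, 1], ![1, 0, 2]] x k
  bf_inj := by decide
  bf_none := by decide
  jf_none := by decide
  L_inj := by decide
  L_ne := by decide
  O_inj := by decide
  O_ne := by decide
  P_inj := by decide
  P_ne := by decide
  g_inj := by decide
  g_ne := by decide
  P_eq := by decide
  mY_inj := by decide
  mX_inj := by decide
  ptO_inj := by decide
  ptO_ne := by decide
  ptY_inj := by decide
  ptY_ne := by decide
  ptP_inj := by decide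
  ptP_ne := by decide
  ptQ_inj := by decide
  ptQ_ne := by decide
  ptX_inj := by decide
  ptX_ne := by decide

/-- The model for order four and collinear diagonal points. -/
def model4 : Model (Fin 4) where
  z := 3
  a := 0
  bf := ![some 0, some 1, some 2, none]
  jf := ![none, some 2, some 1, some 0]
  Lc x k := ![![some 1, some 2, some 0, none], ![none, some 3, some 1, some 2],
    ![some 2, none, some 3, some 0], ![some 3, some 0, none, some 1]] x k
  Oc x k := ![![some 3, some 3, some 3, some 2], ![none, some 2, some 0, some 0],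
    ![some 1, none, none, some 1], ![some 2, some 0, some 1, none]] x k
  Pc x k := ![![some 1, none, some 0, some 0], ![none, some 3, some 1, some 1],
    ![some 2, some 0, some 3, some 2], ![some 3, some 2, none, none]] x k
  gc := ![none, some 0, some 1, some 2]
  mY := ![1, 0, 2, 3]
  mX x k := ![![1, 2, 0, 3], ![0, 3, 1, 2], ![2, 1, 3, 0], ![1, 0, 2, 3]] x k
  bf_inj := by decide
  bf_none := by decide
  jf_none := by decide
  L_inj := by decide
  L_ne := by decide
  O_inj := by decide
  O_ne := by decide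
  P_inj := by decide
  P_ne := by decide
  g_inj := by decide
  g_ne := by decide
  P_eq := by decide
  mY_inj := by decide
  mX_inj := by decide
  ptO_inj := by decide
  ptO_ne := by decide
  ptY_inj := by decide
  ptY_ne := by decide
  ptP_inj := by decide
  ptP_ne := by decide
  ptQ_inj := by decide
  ptQ_ne := by decide
  ptX_inj := by decide
  ptX_ne := by decide

/-- The square for odd order `q`, in index form. -/
def Lodd (q x k : ℕ) : ℕ :=
  if x + 2 = q then
    (if k % 2 = 0 then (if k = 0 then q - 1 else k / 2 - 1)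
      else (k + q) / 2 - 1)
  else if k = x then x
  else if k = 2 * x + 2 ∨ k + q = 2 * x + 2 ∨ k + 2 * q = 2 * x + 2 then q - 2
  else if x + 2 ≤ k then k - x - 2
  else if x + 2 ≤ k + q then k + q - x - 2 else k + 2 * q - x - 2

/-- The cyclic successor on the indices below `q - 1`. -/
def nxt (q x : ℕ) : ℕ := if x + 2 < q then x + 1 else 0

/-- The cyclic predecessor on the indices below `q - 1`. -/
def prv (q x : ℕ) : ℕ := if x = 0 ∨ q ≤ x + 1 then q - 2 else x - 1

theorem Lodd_lt {q x k : ℕ} (h3 : 3 ≤ q) (hq : q % 2 = 1) (hx : x < q) (hk : k < q) :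
    Lodd q x k < q := by
  unfold Lodd; split_ifs <;> omega

theorem Lodd_row {q x k l : ℕ} (h3 : 3 ≤ q) (hq : q % 2 = 1) (hx : x < q) (hk : k < q)
    (hl : l < q) (h : Lodd q x k = Lodd q x l) : k = l := by
  unfold Lodd at h; split_ifs at h <;> omega

theorem Lodd_col {q x y k : ℕ} (h3 : 3 ≤ q) (hq : q % 2 = 1) (hx : x < q) (hy : y < q)
    (hk : k < q) (h : Lodd q x k = Lodd q y k) : x = y := by
  unfold Lodd at h; split_ifs at h <;> omega

theorem Lodd_idem {q x : ℕ} (h3 : 3 ≤ q) (hq : q % 2 = 1) (hx : x < q) : Lodd q x x = x := by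
  unfold Lodd; split_ifs <;> omega

theorem Lodd_nxt {q x : ℕ} (h3 : 3 ≤ q) (hq : q % 2 = 1) (hx : x + 1 < q) :
    Lodd q x (nxt q x) = q - 1 := by
  unfold Lodd nxt; split_ifs <;> omega

theorem Lodd_z {q x : ℕ} (h3 : 3 ≤ q) (hq : q % 2 = 1) (hx : x + 1 < q) :
    Lodd q (q - 1) (nxt q x) = x := by
  unfold Lodd nxt; split_ifs <;> omega

/-- The square for even order `q`, in index form. -/
def Leven (q x k : ℕ) : ℕ :=
  if x + 1 = q then (if k + 1 = q then x else nxt q k)
  else if k + 1 = q then nxt q (nxt q x)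
  else if k = nxt q x then q - 1
  else if 2 * k < x then 2 * k + (q - 1) - x
  else if 2 * k - x < q - 1 then 2 * k - x else 2 * k - x - (q - 1)

theorem Leven_lt {q x k : ℕ} (h3 : 4 ≤ q) (hx : x < q) (hk : k < q) :
    Leven q x k < q := by
  unfold Leven nxt; split_ifs <;> omega

theorem Leven_row {q x k l : ℕ} (h3 : 4 ≤ q) (hq : q % 2 = 0) (hx : x < q) (hk : k < q)
    (hl : l < q) (h : Leven q x k = Leven q x l) : k = l := by
  unfold Leven nxt at h; split_ifs at h <;> omega

theorem Leven_col {q x y k : ℕ} (h3 : 4 ≤ q) (hx : x < q) (hy : y < q)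
    (hk : k < q) (h : Leven q x k = Leven q y k) : x = y := by
  unfold Leven nxt at h; split_ifs at h <;> omega

theorem Leven_idem {q x : ℕ} (h3 : 4 ≤ q) (hx : x < q) : Leven q x x = x := by
  unfold Leven nxt; split_ifs <;> omega

theorem Leven_nxt {q x : ℕ} (h3 : 4 ≤ q) (hx : x + 1 < q) :
    Leven q x (nxt q x) = q - 1 := by
  unfold Leven nxt; split_ifs <;> omega

theorem Leven_z {q x : ℕ} (h3 : 4 ≤ q) (hx : x + 1 < q) :
    Leven q (q - 1) (nxt q x) = Leven q x (q - 1) := by
  unfold Leven nxt; split_ifs <;> omega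

theorem Leven_a {q : ℕ} (h3 : 4 ≤ q) : Leven q (q - 4) (q - 1) = q - 2 := by
  unfold Leven nxt; split_ifs <;> omega

theorem Leven_b {q : ℕ} (h3 : 4 ≤ q) : Leven q (q - 2) (nxt q (q - 4)) = q - 4 := by
  have h1 : nxt q (q - 4) = q - 3 := by unfold nxt; split_ifs <;> omega
  have h2 : nxt q (q - 2) = 0 := by unfold nxt; split_ifs <;> omega
  rw [h1]; unfold Leven; rw [h2]; split_ifs <;> omega

section Order

variable {D : Type*}

theorem ins_one (T : D → D) (hT : Function.Injective T) (h v : D) (m t : List D)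
    (hm : 2 ≤ m.length) (ht : t ≠ []) (hn : (h :: m ++ t).Nodup)
    (hc : List.IsChain (fun u w => T u ≠ w) (h :: m ++ t)) :
    ∃ m' : List D, m'.Perm (v :: m) ∧ List.IsChain (fun u w => T u ≠ w) (h :: m' ++ t) := by
  obtain ⟨m0, m1, r, rfl⟩ : ∃ m0 m1 r, m = m0 :: m1 :: r := by
    match m, hm with
    | m0 :: m1 :: r, _ => exact ⟨m0, m1, r, rfl⟩
  obtain ⟨n, s, hs⟩ : ∃ n s, r ++ t = n :: s := by
    cases hr : r ++ t with
    | nil => simp [ht] at hr
    | cons n s => exact ⟨n, s, rfl⟩
  simp only [List.cons_append, hs, List.isChain_cons_cons, List.nodup_cons, List.mem_cons,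
    not_or] at hn hc
  obtain ⟨c1, c2, c3, c4⟩ := hc
  by_cases g1 : T h ≠ v ∧ T v ≠ m0
  · refine ⟨v :: m0 :: m1 :: r, List.Perm.refl _, ?_⟩
    simp only [List.cons_append, hs, List.isChain_cons_cons]
    exact ⟨g1.1, g1.2, c2, c3, c4⟩
  by_cases g2 : T m0 ≠ v ∧ T v ≠ m1
  · refine ⟨m0 :: v :: m1 :: r, List.Perm.swap _ _ _, ?_⟩
    simp only [List.cons_append, hs, List.isChain_cons_cons]
    exact ⟨c1, g2.1, g2.2, c3, c4⟩
  refine ⟨m0 :: m1 :: v :: r, ?_, ?_⟩
  · exact ((List.Perm.swap _ _ _).cons _).trans (List.Perm.swap _ _ _)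
  · simp only [List.cons_append, hs, List.isChain_cons_cons]
    have e1 : ∀ x y, T x = T y → x = y := fun x y h => hT h
    refine ⟨c1, c2, ?_, ?_, c4⟩ <;> grind

theorem ins_many (T : D → D) (hT : Function.Injective T) (h : D) (t : List D) (ht : t ≠ [])
    (m : List D) (hm : 2 ≤ m.length)
    (hc : List.IsChain (fun u w => T u ≠ w) (h :: m ++ t)) :
    ∀ r : List D, (r ++ (h :: m ++ t)).Nodup →
      ∃ m' : List D, m'.Perm (r ++ m) ∧ List.IsChain (fun u w => T u ≠ w) (h :: m' ++ t) := by
  intro r
  induction r with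
  | nil => exact fun _ => ⟨m, List.Perm.refl _, hc⟩
  | cons v r ih =>
    intro hn
    have hn' : (r ++ (h :: m ++ t)).Nodup := (List.nodup_cons.1 hn).2
    obtain ⟨m', p, c⟩ := ih hn'
    have hl : 2 ≤ m'.length := by rw [p.length_eq, List.length_append]; omega
    have hn2 : (h :: m' ++ t).Nodup := by
      refine (List.Perm.nodup_iff ?_).1 hn'
      have : (h :: m' ++ t).Perm (h :: (r ++ m) ++ t) := (p.cons h).append_right t
      refine List.Perm.trans ?_ this.symm
      simp only [List.cons_append, List.append_assoc]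
      exact List.perm_middle
    obtain ⟨m'', p', c'⟩ := ins_one T hT h v m' t hl ht hn2 c
    exact ⟨m'', p'.trans (p.cons v), c'⟩

/-- A list of all elements other than `V`, with prescribed head and end, avoiding the arcs
of `T`. -/
theorem exists_order [Fintype D] [DecidableEq D] (T : D → D) (hT : Function.Injective T)
    (V h : D) (t : List D) (ht : t ≠ []) (m : List D) (hm : 2 ≤ m.length)
    (hn : (V :: (h :: m ++ t)).Nodup)
    (hc : List.IsChain (fun u w => T u ≠ w) (h :: m ++ t)) :
    ∃ m' : List D, (V :: (h :: m' ++ t)).Nodup ∧ (∀ d, d ∈ V :: (h :: m' ++ t)) ∧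
      List.IsChain (fun u w => T u ≠ w) (h :: m' ++ t) := by
  set r := (Finset.univ.filter fun d => d ∉ V :: (h :: m ++ t)).toList with hr
  have hmem : ∀ d, d ∈ r ↔ d ∉ V :: (h :: m ++ t) := fun d => by simp [hr]
  have hall : (r ++ V :: (h :: m ++ t)).Nodup := by
    rw [List.nodup_append]
    refine ⟨Finset.nodup_toList _, hn, ?_⟩
    rintro x hx y hy rfl
    exact (hmem x).1 hx hy
  have hall' : (V :: (r ++ (h :: m ++ t))).Nodup := (List.perm_middle.nodup_iff).1 hall
  obtain ⟨m', p, c⟩ := ins_many T hT h t ht m hm hc r (List.nodup_cons.1 hall').2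
  have pp : (V :: (h :: m' ++ t)).Perm (r ++ V :: (h :: m ++ t)) := by
    refine List.Perm.trans (List.Perm.cons V ?_) List.perm_middle.symm
    refine ((p.cons h).append_right t).trans ?_
    simp only [List.cons_append, List.append_assoc]
    exact List.perm_middle.symm
  refine ⟨m', pp.nodup_iff.2 hall, fun d => ?_, c⟩
  rw [pp.mem_iff, List.mem_append, hmem]
  tauto

/-- The labelling defined by a list. -/
theorem exists_label (V : D) (l : List D) (hn : (V :: l).Nodup) (ha : ∀ d, d ∈ V :: l) :
    ∃ e : D ≃ Option (Fin l.length), e.symm none = V ∧ ∀ i, e.symm (some i) = l[i] := by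
  let g : Option (Fin l.length) → D := fun o => o.elim V fun i => l[i]
  have hg : Function.Bijective g := by
    rw [List.nodup_cons] at hn
    constructor
    · rintro (_ | i) (_ | j) h
      · rfl
      · exact (hn.1 (by simp only [g, Option.elim] at h; rw [h]; exact List.getElem_mem _)).elim
      · exact (hn.1 (by simp only [g, Option.elim] at h; rw [← h]; exact List.getElem_mem _)).elim
      · simp only [g, Option.elim] at h
        exact congrArg some (Fin.ext ((hn.2.getElem_inj_iff).1 h))
    · intro d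
      rcases List.mem_cons.1 (ha d) with rfl | hd
      · exact ⟨none, rfl⟩
      · obtain ⟨i, hi, rfl⟩ := List.getElem_of_mem hd
        exact ⟨some ⟨i, hi⟩, rfl⟩
  exact ⟨(Equiv.ofBijective g hg).symm, rfl, fun _ => rfl⟩

end Order

end Pool.Agent.P.MP_77d020_co
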