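import Mathlib

/-! Abstract affine planes, good colourings, and the generic two-pencil model. -/

namespace Pool.Agent.P.MP_77d020_co

open Function

/-- An abstract affine plane: points `A`, directions `D`, names of lines `Λ`. -/
structure APlane (A D Λ : Type*) where
  ln : A → D → Λ
  dir : A → A → D
  dir_spec : ∀ w w', w ≠ w' → ∀ d, ln w d = ln w' d ↔ d = dir w w'
  meet : ∀ d d', d ≠ d' → ∀ w w', ∃ p, ln p d = ln w d ∧ ln p d' = ln w' d'

/-- A good colouring of the flags of an affine plane by directions. -/
def APlane.Good {A D Λ : Type*} (π : APlane A D Λ) (c : A → D → D) : Prop :=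
  (∀ w, Injective (c w)) ∧ (∀ w d, c w d ≠ d) ∧
    ∀ w w' d, w ≠ w' → π.ln w d = π.ln w' d → c w d ≠ c w' d

/-- Relabelling of the directions. -/
def APlane.relabel {A D D' Λ : Type*} (π : APlane A D Λ) (e : D ≃ D') : APlane A D' Λ where
  ln w d := π.ln w (e.symm d)
  dir w w' := e (π.dir w w')
  dir_spec w w' h d := by
    rw [π.dir_spec w w' h, Equiv.symm_apply_eq]
  meet d d' h w w' := π.meet _ _ (fun h' => h (e.symm.injective h')) w w'

theorem APlane.good_of_relabel {A D D' Λ : Type*} (π : APlane A D Λ) (e : D ≃ D')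
    (h : ∃ c, (π.relabel e).Good c) : ∃ c, π.Good c := by
  obtain ⟨c, h1, h2, h3⟩ := h
  refine ⟨fun w d => e.symm (c w (e d)), fun w => ?_, fun w d hh => ?_, fun w w' d hw hl hh => ?_⟩
  · exact e.symm.injective.comp ((h1 w).comp e.injective)
  · exact h2 w (e d) (by rw [← Equiv.symm_apply_eq]; simpa using hh) |>.elim
  · refine h3 w w' (e d) hw ?_ (e.symm.injective hh)
    simpa [APlane.relabel] using hl

/-- The data of a generic model and the conditions it has to satisfy. -/
structure Model (F : Type*) [DecidableEq F] where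
  z : F
  a : F
  bf : F → Option F
  jf : F → Option F
  Lc : F → F → Option F
  Oc : F → F → Option F
  Pc : F → F → Option F
  gc : F → Option F
  mY : F → F
  mX : F → F → F
  bf_inj : ∀ x y, bf x = bf y → x = y
  bf_none : bf z = none
  jf_none : ∀ x, jf x = none ↔ x = a
  L_inj : ∀ k x y, Lc x k = Lc y k → x = y
  L_ne : ∀ k x, Lc x k ≠ some k
  O_inj : ∀ k x y, Oc x k = Oc y k → x = y
  O_ne : ∀ k x, Oc x k ≠ some k
  P_inj : ∀ k, k ≠ z → ∀ x y, Pc x k = Pc y k → x = y
  P_ne : ∀ k, k ≠ z → ∀ x, Pc x k ≠ some k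
  g_inj : ∀ x y, gc x = gc y → x = y
  g_ne : ∀ x, gc x ≠ some z
  P_eq : ∀ x k, x ≠ z → x ≠ a → k ≠ z → jf x ≠ some k → Pc x k = Lc x k
  mY_inj : ∀ k l, mY k = mY l → k = l
  mX_inj : ∀ x, x ≠ z → ∀ k l, mX x k = mX x l → k = l
  ptO_inj : ∀ k l, Oc z k = Oc z l → k = l
  ptO_ne : ∀ k, Oc z k ≠ some (mY z)
  ptY_inj : ∀ k0, k0 ≠ z → ∀ k l,
    (if k = k0 then Pc z k else if k = z ∧ jf z = some k0 then gc z else Lc z k) =
    (if l = k0 then Pc z l else if l = z ∧ jf z = some k0 then gc z else Lc z l) → k = l
  ptY_ne : ∀ k0, k0 ≠ z → ∀ k,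
    (if k = k0 then Pc z k else if k = z ∧ jf z = some k0 then gc z else Lc z k) ≠ some (mY k0)
  ptP_inj : ∀ k l, (if k = z then Oc a k else Pc a k) = (if l = z then Oc a l else Pc a l) → k = l
  ptP_ne : ∀ k, (if k = z then Oc a k else Pc a k) ≠ some (mX a z)
  ptQ_inj : ∀ x b0, x ≠ z → bf x = some b0 → ∀ k l,
    (if k = b0 then Oc x k else if jf x = some k then Pc x k else if k = z then gc x else Lc x k) =
    (if l = b0 then Oc x l else if jf x = some l then Pc x l else if l = z then gc x else Lc x l) →
      k = l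
  ptQ_ne : ∀ x b0, x ≠ z → bf x = some b0 → ∀ k,
    (if k = b0 then Oc x k else if jf x = some k then Pc x k else if k = z then gc x else Lc x k) ≠
      some (mX x b0)
  ptX_inj : ∀ x b0, x ≠ z → bf x ≠ some b0 → (x = a → b0 ≠ z) → ∀ k l,
    (if k = b0 then Oc x k else Lc x k) = (if l = b0 then Oc x l else Lc x l) → k = l
  ptX_ne : ∀ x b0, x ≠ z → bf x ≠ some b0 → (x = a → b0 ≠ z) → ∀ k,
    (if k = b0 then Oc x k else Lc x k) ≠ some (mX x b0)

namespace APlane

variable {A D Λ : Type*} (π : APlane A D Λ)

theorem eq_of_two {w w' : A} {d d' : D} (h : d ≠ d') (h1 : π.ln w d = π.ln w' d)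
    (h2 : π.ln w d' = π.ln w' d') : w = w' := by
  by_contra hw
  exact h (((π.dir_spec w w' hw d).1 h1).trans ((π.dir_spec w w' hw d').1 h2).symm)

theorem ln_dir {w w' : A} (h : w ≠ w') : π.ln w (π.dir w w') = π.ln w' (π.dir w w') :=
  (π.dir_spec w w' h _).2 rfl

end APlane

open Classical in
theorem Model.good {A F Λ : Type*} [DecidableEq F] (M : Model F) (π : APlane A (Option F) Λ)
    (O O' G : A) (hOO : O ≠ O') (hz : π.ln O (some M.z) = π.ln O' (some M.z))
    (hG : π.ln G (some M.z) ≠ π.ln O (some M.z))
    (hQ : ∀ Q, π.ln Q (some M.z) = π.ln G (some M.z) →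
      ∃ x, π.dir O Q = M.bf x ∧ π.dir O' Q = M.jf x) :
    ∃ c, π.Good c := by
  -- the point of `g` on the vertical through `w`
  have hft : ∀ w, ∃ p, π.ln p none = π.ln w none ∧ π.ln p (some M.z) = π.ln G (some M.z) :=
    fun w => π.meet none (some M.z) (by simp) w G
  choose ft hft1 hft2 using hft
  choose lab0 hb hj using hQ
  set lab : A → F := fun w => lab0 (ft w) (hft2 w) with hlab
  have hb' : ∀ w, π.dir O (ft w) = M.bf (lab w) := fun w => hb _ _
  have hj' : ∀ w, π.dir O' (ft w) = M.jf (lab w) := fun w => hj _ _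
  have hOft : ∀ w, O ≠ ft w := fun w h => hG (by rw [← hft2 w, ← h])
  have hOft' : ∀ w, O' ≠ ft w := fun w h => hG (by rw [← hft2 w, ← h, hz])
  have hdz : ∀ w, π.dir O (ft w) ≠ some M.z := fun w h =>
    hG (by rw [← hft2 w, ← h]; exact (π.ln_dir (hOft w)).symm)
  have hdz' : ∀ w, π.dir O' (ft w) ≠ some M.z := fun w h =>
    hG (by rw [← hft2 w, hz, ← h]; exact (π.ln_dir (hOft' w)).symm)
  have lab_iff : ∀ w w', lab w = lab w' ↔ π.ln w none = π.ln w' none := by
    intro w w'
    constructor
    · intro h
      have h1 : π.dir O (ft w) = π.dir O (ft w') := by rw [hb', hb', h]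
      have h2 : ft w = ft w' := by
        refine π.eq_of_two (hdz w) ?_ ((hft2 w).trans (hft2 w').symm)
        rw [← π.ln_dir (hOft w), h1, π.ln_dir (hOft w')]
      rw [← hft1 w, h2, hft1]
    · intro h
      have h2 : ft w = ft w' :=
        π.eq_of_two (d := none) (d' := some M.z) (by simp) (by rw [hft1, hft1, h])
          ((hft2 w).trans (hft2 w').symm)
      apply M.bf_inj
      rw [← hb', ← hb', h2]
  have labz : ∀ w, lab w = M.z ↔ π.ln O none = π.ln w none := by
    intro w
    rw [← hft1 w, π.dir_spec _ _ (hOft w), hb']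
    constructor
    · intro h; rw [h, M.bf_none]
    · intro h; apply M.bf_inj; rw [← h, M.bf_none]
  have laba : ∀ w, lab w = M.a ↔ π.ln O' none = π.ln w none := by
    intro w
    rw [← hft1 w, π.dir_spec _ _ (hOft' w), hj', ← M.jf_none, eq_comm]
  have labO : lab O = M.z := (labz O).2 rfl
  have labO' : lab O' = M.a := (laba O').2 rfl
  have hza : M.z ≠ M.a := by
    intro h
    have : π.ln O none = π.ln O' none := (labz O').1 (by rw [labO', h])
    exact hOO (π.eq_of_two (by simp) this hz)
  -- finite directions from the two centres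
  have hβ : ∀ w, lab w ≠ M.z → ∃ b0, π.dir O w = some b0 ∧ O ≠ w := by
    intro w h
    have hw : O ≠ w := fun h' => h (h' ▸ labO)
    cases hd : π.dir O w with
    | none => exact (h ((labz w).2 ((π.dir_spec _ _ hw _).2 hd.symm))).elim
    | some b0 => exact ⟨b0, rfl, hw⟩
  have hγ : ∀ w, lab w = M.z → ∃ k0, π.dir O' w = some k0 ∧ O' ≠ w := by
    intro w h
    have hw : O' ≠ w := fun h' => hza (by rw [← h, ← h', labO'])
    cases hd : π.dir O' w with
    | none => exact (hza (h.symm.trans ((laba w).2 ((π.dir_spec _ _ hw _).2 hd.symm)))).elim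
    | some b0 => exact ⟨b0, rfl, hw⟩
  let col : A → F → Option F := fun w k =>
    if π.ln O (some k) = π.ln w (some k) then M.Oc (lab w) k
    else if π.ln O' (some k) = π.ln w (some k) then M.Pc (lab w) k
    else if k = M.z ∧ π.ln w (some k) = π.ln G (some k) then M.gc (lab w) else M.Lc (lab w) k
  let m : A → F := fun w =>
    if lab w = M.z then M.mY ((π.dir O' w).getD M.z) else M.mX (lab w) ((π.dir O w).getD M.z)
  have hdOO : π.dir O O' = some M.z := ((π.dir_spec _ _ hOO _).1 hz).symm
  have hdOO' : π.dir O' O = some M.z := ((π.dir_spec _ _ hOO.symm _).1 hz.symm).symm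
  -- a point on `g` is its own foot
  have ft_self : ∀ w, π.ln w (some M.z) = π.ln G (some M.z) → ft w = w := fun w h =>
    π.eq_of_two (d := none) (d' := some M.z) (by simp) (hft1 w) ((hft2 w).trans h.symm)
  have key : ∀ w, (∀ k l, col w k = col w l → k = l) ∧ ∀ k, col w k ≠ some (m w) := by
    intro w
    by_cases hwz : lab w = M.z
    · obtain ⟨k0, hk0, hw'⟩ := hγ w hwz
      have hm : m w = M.mY k0 := by simp [m, hwz, hk0]
      by_cases hwO : O = w
      · subst hwO
        have hk : k0 = M.z := by simpa [hdOO'] using hk0.symm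
        have hc : ∀ k, col O k = M.Oc M.z k := fun k => by simp [col, labO]
        simp only [hc, hm, hk]
        exact ⟨M.ptO_inj, M.ptO_ne⟩
      · have hdn : π.dir O w = none := ((π.dir_spec _ _ hwO _).1 ((labz w).1 hwz)).symm
        have hk0z : k0 ≠ M.z := by
          intro h
          have h1 : π.ln O' (some M.z) = π.ln w (some M.z) :=
            (π.dir_spec _ _ hw' _).2 (by rw [hk0, h])
          have := (π.dir_spec _ _ hwO _).1 (hz.trans h1)
          simp [hdn] at this
        have hc : ∀ k, col w k = if k = k0 then M.Pc M.z k else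
            if k = M.z ∧ M.jf M.z = some k0 then M.gc M.z else M.Lc M.z k := by
          intro k
          have h1 : ¬ π.ln O (some k) = π.ln w (some k) := by
            rw [π.dir_spec _ _ hwO, hdn]; simp
          have h2 : π.ln O' (some k) = π.ln w (some k) ↔ k = k0 := by
            rw [π.dir_spec _ _ hw', hk0]; simp
          have h3 : (k = M.z ∧ π.ln w (some k) = π.ln G (some k)) ↔
              (k = M.z ∧ M.jf M.z = some k0) := by
            refine and_congr_right fun hk => ?_
            subst hk
            constructor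
            · intro h
              rw [← hwz, ← hj', ft_self w h, hk0]
            · intro h
              rw [← hwz, ← hj'] at h
              have : ft w = w := by
                refine π.eq_of_two (d := none) (d' := some k0) (by simp) (hft1 w) ?_
                rw [← (π.dir_spec _ _ (hOft' w) _).2 h.symm, (π.dir_spec _ _ hw' _).2 hk0.symm]
              rw [← this, hft2]
          simp only [col, h1, h2, h3, hwz, if_false]
        simp only [hc, hm]
        exact ⟨M.ptY_inj k0 hk0z, M.ptY_ne k0 hk0z⟩
    · obtain ⟨b0, hb0, hw⟩ := hβ w hwz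
      have hm : m w = M.mX (lab w) b0 := by simp [m, hwz, hb0]
      have h1 : ∀ k, π.ln O (some k) = π.ln w (some k) ↔ k = b0 := fun k => by
        rw [π.dir_spec _ _ hw, hb0]; simp
      by_cases hwO : O' = w
      · subst hwO
        have hk : b0 = M.z := by simpa [hdOO] using hb0.symm
        have hc : ∀ k, col O' k = if k = M.z then M.Oc M.a k else M.Pc M.a k := fun k => by
          simp [col, labO', h1, hk]
        simp only [hc, hm, hk, labO']
        exact ⟨M.ptP_inj, M.ptP_ne⟩
      · by_cases hq : M.bf (lab w) = some b0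
        · have hfw : ft w = w := by
            refine π.eq_of_two (d := none) (d' := some b0) (by simp) (hft1 w) ?_
            rw [← (π.dir_spec _ _ (hOft w) _).2 (by rw [hb', hq]), (h1 b0).2 rfl]
          have hc : ∀ k, col w k = if k = b0 then M.Oc (lab w) k else
              if M.jf (lab w) = some k then M.Pc (lab w) k else
              if k = M.z then M.gc (lab w) else M.Lc (lab w) k := by
            intro k
            have h2 : π.ln O' (some k) = π.ln w (some k) ↔ M.jf (lab w) = some k := by
              rw [π.dir_spec _ _ hwO, ← hj', hfw, eq_comm]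
            have h3 : (k = M.z ∧ π.ln w (some k) = π.ln G (some k)) ↔ k = M.z := by
              refine ⟨fun h => h.1, fun h => ⟨h, ?_⟩⟩
              rw [h, ← hfw, hft2]
            simp only [col, h1, h2, h3]
          simp only [hc, hm]
          exact ⟨M.ptQ_inj _ b0 hwz hq, M.ptQ_ne _ b0 hwz hq⟩
        · have hfw : ft w ≠ w := fun h => hq (by rw [← hb', h, hb0])
          have hab : lab w = M.a → b0 ≠ M.z := by
            intro h h'
            refine hwO (π.eq_of_two (d := none) (d' := some M.z) (by simp) ((laba w).1 h) ?_)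
            rw [← hz]; exact (h1 _).2 h'.symm
          have hc : ∀ k, col w k = if k = b0 then M.Oc (lab w) k else M.Lc (lab w) k := by
            intro k
            have h3 : ¬ (k = M.z ∧ π.ln w (some k) = π.ln G (some k)) := by
              rintro ⟨rfl, h⟩
              exact hfw (ft_self w h)
            simp only [col, h1, h3, if_false]
            split_ifs with h4 h5
            · rfl
            · refine M.P_eq _ _ hwz (fun h => ?_) (fun h => ?_) (fun h => ?_)
              · have := (π.dir_spec _ _ hwO _).1 ((laba w).1 h)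
                have h6 := (π.dir_spec _ _ hwO _).1 h5
                simp [← this] at h6
              · subst h
                exact h4 ((h1 _).1 (hz.trans h5))
              · apply hfw
                refine π.eq_of_two (d := none) (d' := some k) (by simp) (hft1 w) ?_
                rw [← h5, (π.dir_spec _ _ (hOft' w) _).2 (by rw [hj', h])]
            · rfl
          simp only [hc, hm]
          exact ⟨M.ptX_inj _ b0 hwz hq hab, M.ptX_ne _ b0 hwz hq hab⟩
  have hPz : ∀ w k, ¬ π.ln O (some k) = π.ln w (some k) → π.ln O' (some k) = π.ln w (some k) →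
      k ≠ M.z := by
    rintro w k h1 h2 rfl
    exact h1 (hz.trans h2)
  refine ⟨fun w d => d.elim (some (m w)) (col w), fun w => ?_, fun w d => ?_, ?_⟩
  · rintro (_ | k) (_ | l) h
    · rfl
    · exact ((key w).2 l (by simpa using h.symm)).elim
    · exact ((key w).2 k (by simpa using h)).elim
    · exact congrArg some ((key w).1 k l h)
  · rcases d with _ | k
    · simp
    · simp only [Option.elim, col]
      split_ifs with h1 h2 h3
      · exact M.O_ne _ _
      · exact M.P_ne _ (hPz w k h1 h2) _
      · rw [h3.1]; exact M.g_ne _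
      · exact M.L_ne _ _
  · rintro w w' (_ | k) hw hl h
    · have hlab' : lab w = lab w' := (lab_iff _ _).2 hl
      simp only [Option.elim, Option.some.injEq] at h
      by_cases hwz : lab w = M.z
      · obtain ⟨k0, hk0, hw1⟩ := hγ w hwz
        obtain ⟨k1, hk1, hw2⟩ := hγ w' (hlab' ▸ hwz)
        have h' : M.mY k0 = M.mY k1 := by simpa [m, hwz, hlab' ▸ hwz, hk0, hk1] using h
        have := M.mY_inj _ _ h'
        subst this
        refine hw (π.eq_of_two (d := none) (d' := some k0) (by simp) hl ?_)
        rw [← (π.dir_spec _ _ hw1 _).2 hk0.symm, (π.dir_spec _ _ hw2 _).2 hk1.symm]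
      · obtain ⟨k0, hk0, hw1⟩ := hβ w hwz
        obtain ⟨k1, hk1, hw2⟩ := hβ w' (hlab' ▸ hwz)
        have h' : M.mX (lab w) k0 = M.mX (lab w) k1 := by
          simpa [m, hwz, ← hlab', hk0, hk1] using h
        have := M.mX_inj _ hwz _ _ h'
        subst this
        refine hw (π.eq_of_two (d := none) (d' := some k0) (by simp) hl ?_)
        rw [← (π.dir_spec _ _ hw1 _).2 hk0.symm, (π.dir_spec _ _ hw2 _).2 hk1.symm]
    · have hne : lab w ≠ lab w' := fun h' =>
        hw (π.eq_of_two (d := none) (d' := some k) (by simp) ((lab_iff _ _).1 h') hl)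
      simp only [Option.elim, col, ← hl] at h
      split_ifs at h with h1 h2 h3
      · exact hne (M.O_inj _ _ _ h)
      · exact hne (M.P_inj _ (hPz w k h1 h2) _ _ h)
      · exact hne (M.g_inj _ _ h)
      · exact hne (M.L_inj _ _ _ h)

end Pool.Agent.P.MP_77d020_co
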