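import Pool.Agent.P.MP_77d020_co.Base
import Pool.Agent.P.MP_77d020_co.Design

/-! From the vector form to the design of points and hyperplanes. -/

namespace Pool.Agent.P.MP_77d020_co

open Module Finset

variable {F V : Type} [Field F] [Finite F] [AddCommGroup V] [Module F V] [FiniteDimensional F V]

omit [Finite F] [FiniteDimensional F V] in
theorem rep_smul (v : V) (hv : v ≠ 0) :
    ∃ a : F, a ≠ 0 ∧ a • (Projectivization.mk F v hv).rep = v := by
  obtain ⟨a, ha⟩ := Projectivization.exists_smul_eq_mk_rep F v hv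
  refine ⟨(a⁻¹ : Fˣ), Units.ne_zero _, ?_⟩
  rw [← ha, Units.smul_def, smul_smul]; simp

omit [Finite F] [FiniteDimensional F V] in
theorem eq_of_rep {x y : Projectivization F V} {a : F} (h : x.rep = a • y.rep) : x = y := by
  rw [← x.mk_rep, ← y.mk_rep, Projectivization.mk_eq_mk_iff']
  exact ⟨a, h.symm⟩

theorem surj_of_inj {M N : Type} [AddCommGroup M] [Module F M] [AddCommGroup N] [Module F N]
    [FiniteDimensional F M] [FiniteDimensional F N] (h : finrank F M = finrank F N) (g : M → N)
    (hg : Function.Injective g) : Function.Surjective g := by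
  have : Finite M := Module.finite_of_finite F
  exact (Finite.injective_iff_surjective_of_equiv (LinearEquiv.ofFinrankEq M N h).toEquiv).1 hg

theorem proj_arrangeable [Fintype (Projectivization F V)] [DecidableEq (Projectivization F V)]
    (hq : ¬ (Nat.card F = 2 ∧ finrank F V = 3)) {Blk : Finset (Finset (Projectivization F V))}
    (hBlk : ∀ B, B ∈ Blk ↔ ∃ φ : Dual F V, φ ≠ 0 ∧ ∀ x, x ∈ B ↔ φ x.rep = 0)
    {B0 : Finset (Projectivization F V)} (h0 : B0 ∈ Blk) : Arrangeable Blk B0 := by
  classical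
  obtain ⟨φ0, hφ0, hB0⟩ := (hBlk B0).1 h0
  have hr := Module.Dual.finrank_ker_add_one_of_ne_zero hφ0
  obtain ⟨x0, hx0⟩ := LinearMap.surjective hφ0 1
  set W := LinearMap.ker φ0 with hW
  obtain ⟨σ, s1, s2, s3⟩ := arr_all F _ W rfl (fun h => hq ⟨h.1, by omega⟩)
  let pr : V →ₗ[F] W := LinearMap.codRestrict W (LinearMap.id - φ0.smulRight x0)
    (fun v => by simp [hW, hx0])
  have pr_coe : ∀ v, (pr v : V) = v - φ0 v • x0 := fun v => rfl
  have pr_W : ∀ w : W, pr w = w := fun w => Subtype.ext (by
    rw [pr_coe, (LinearMap.mem_ker.1 w.2), zero_smul, sub_zero])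
  have pr_x0 : pr x0 = 0 := Subtype.ext (by rw [pr_coe, hx0]; simp)
  let ψ : W → W → Dual F V := fun w u => σ w u ∘ₗ pr - σ w u w • φ0
  have ψ_W : ∀ w u (x : W), ψ w u x = σ w u x := fun w u x => by
    simp [ψ, pr_W, LinearMap.mem_ker.1 x.2]
  have ψ_x0 : ∀ w u, ψ w u x0 = -σ w u w := fun w u => by simp [ψ, pr_x0, hx0]
  have ψ_pt : ∀ w u, ψ w u (x0 + w) = 0 := fun w u => by rw [map_add, ψ_W, ψ_x0]; ring
  have ext_W : ∀ χ χ' : Dual F V, ∀ w : W, (∀ x : W, χ x = χ' x) → χ (x0 + w) = χ' (x0 + w) →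
      χ = χ' := by
    intro χ χ' w h1 h2
    ext v
    have : v = (pr v : V) - φ0 v • (w : V) + φ0 v • (x0 + w) := by
      rw [pr_coe, smul_add]; abel
    rw [this, map_add, map_add, map_sub, map_sub, map_smul, map_smul, map_smul, map_smul, h1, h1,
      h2]
  let col : Projectivization F V → W := fun j => pr ((φ0 j.rep)⁻¹ • j.rep)
  have col_eq : ∀ j, j ∉ B0 → x0 + col j = (φ0 j.rep)⁻¹ • j.rep := by
    intro j hj
    have : φ0 j.rep ≠ 0 := fun h => hj ((hB0 j).2 h)
    simp [col, pr_coe, smul_sub, smul_smul, inv_mul_cancel₀ this]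
  have vanish : ∀ (χ : Dual F V) j, j ∉ B0 → (χ j.rep = 0 ↔ χ (x0 + col j) = 0) := by
    intro χ j hj
    have : φ0 j.rep ≠ 0 := fun h => hj ((hB0 j).2 h)
    rw [col_eq j hj, map_smul, smul_eq_mul, mul_eq_zero]
    simp [this]
  let row : Projectivization F V → W := fun i => pr i.rep
  have row_eq : ∀ i ∈ B0, (row i : V) = i.rep := by
    intro i hi
    simp only [row, pr_coe, (hB0 i).1 hi, zero_smul, sub_zero]
  have row_ne : ∀ i ∈ B0, row i ≠ 0 := fun i hi h =>
    i.rep_nonzero (by rw [← row_eq i hi, h]; rfl)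
  have ψ_one : ∀ w, ∀ i ∈ B0, ψ w (row i) i.rep = 1 := fun w i hi => by
    rw [← row_eq i hi, ψ_W, s1 _ _ (row_ne i hi)]
  have ψ_blk : ∀ w, ∀ i ∈ B0, univ.filter (fun x : Projectivization F V =>
      ψ w (row i) x.rep = 0) ∈ Blk := fun w i hi =>
    (hBlk _).2 ⟨ψ w (row i), fun h => by simpa [h] using ψ_one w i hi, fun x => by simp⟩
  refine ⟨fun i j => univ.filter (fun x => ψ (col j) (row i) x.rep = 0), fun j hj => ?_,
    fun i hi => ?_⟩
  · ext B
    simp only [mem_image, mem_filter]
    constructor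
    · rintro ⟨i, hi, rfl⟩
      refine ⟨ψ_blk _ i hi, ?_⟩
      simp only [mem_filter, mem_univ, true_and]
      rw [vanish _ j hj, ψ_pt]
    · rintro ⟨hB, hjB⟩
      obtain ⟨χ, hχ, hB'⟩ := (hBlk B).1 hB
      have hχj : χ (x0 + col j) = 0 := (vanish χ j hj).1 ((hB' j).1 hjB)
      have hmk : ∀ u : W, ∃ (i : Projectivization F V) (a : F), u ≠ 0 →
          i ∈ B0 ∧ a ≠ 0 ∧ a • row i = u := by
        intro u
        by_cases hu : u = 0
        · exact ⟨j, 0, fun h => (h hu).elim⟩
        · have hu' : (u : V) ≠ 0 := fun h => hu (Subtype.ext h)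
          obtain ⟨a, ha, ha'⟩ := rep_smul (F := F) _ hu'
          have hi : Projectivization.mk F (u : V) hu' ∈ B0 := by
            rw [hB0]
            have := LinearMap.mem_ker.1 u.2
            rw [← ha', map_smul, smul_eq_mul, mul_eq_zero] at this
            exact this.resolve_left ha
          exact ⟨_, a, fun _ => ⟨hi, ha, Subtype.ext (by
            rw [Submodule.coe_smul, row_eq _ hi, ha'])⟩⟩
      choose ι κ hι using hmk
      let g : W → Dual F W := fun u => if u = 0 then 0 else κ u • σ (col j) (row (ι u))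
      have gne : ∀ u, u ≠ 0 → κ u • σ (col j) (row (ι u)) ≠ 0 := by
        intro u hu h
        have := LinearMap.congr_fun h (row (ι u))
        simp [s1 _ _ (row_ne _ (hι u hu).1), (hι u hu).2.1] at this
      have hg : Function.Injective g := by
        intro u u' h
        simp only [g] at h
        split_ifs at h with h1 h2 h2
        · rw [h1, h2]
        · exact (gne u' h2 h.symm).elim
        · exact (gne u h1 h).elim
        · obtain ⟨a1, a2, a3⟩ := hι u h1
          obtain ⟨b1, b2, b3⟩ := hι u' h2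
          obtain ⟨a, ha⟩ := s2 (col j) _ _ ((κ u)⁻¹ * κ u') (row_ne _ a1) (row_ne _ b1) (by
            rw [mul_smul, ← h, smul_smul, inv_mul_cancel₀ a2, one_smul])
          have e : ι u = ι u' := eq_of_rep (a := a) (by
            rw [← row_eq _ a1, ← row_eq _ b1, ha, Submodule.coe_smul])
          rw [← e] at h
          have := LinearMap.congr_fun h (row (ι u))
          simp only [LinearMap.smul_apply, s1 _ _ (row_ne _ a1), smul_eq_mul, mul_one] at this
          rw [← a3, ← b3, ← e, this]
      obtain ⟨u, hu⟩ := surj_of_inj (F := F) Subspace.dual_finrank_eq.symm g hg (χ ∘ₗ W.subtype)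
      simp only [g] at hu
      split_ifs at hu with h1
      · exact (hχ (ext_W χ 0 (col j) (fun x => by simpa using (LinearMap.congr_fun hu x).symm)
          (by simpa using hχj))).elim
      · obtain ⟨a1, a2, a3⟩ := hι u h1
        have e : χ = κ u • ψ (col j) (row (ι u)) := by
          refine ext_W _ _ (col j) (fun x => ?_) ?_
          · simpa [ψ_W] using (LinearMap.congr_fun hu x).symm
          · rw [hχj, LinearMap.smul_apply, ψ_pt, smul_zero]
        refine ⟨ι u, a1, ?_⟩
        ext x
        simp [hB', e, a2]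
  · ext B
    simp only [mem_image, mem_filter, mem_univ, true_and]
    constructor
    · rintro ⟨j, hj, rfl⟩
      refine ⟨ψ_blk _ i hi, fun h => hj ?_, by simp [ψ_one _ i hi]⟩
      rw [← h]
      simp only [mem_filter, mem_univ, true_and]
      rw [vanish _ j hj, ψ_pt]
    · rintro ⟨hB, -, hiB⟩
      obtain ⟨χ, hχ, hB'⟩ := (hBlk B).1 hB
      have hχi : χ i.rep ≠ 0 := fun h => hiB ((hB' i).2 h)
      let ev : Dual F (Dual F V) := Dual.eval F V i.rep
      have hev : ev ≠ 0 := fun h => hχi (by simpa [ev] using LinearMap.congr_fun h χ)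
      have hr2 := Module.Dual.finrank_ker_add_one_of_ne_zero hev
      rw [Subspace.dual_finrank_eq] at hr2
      let g : W → LinearMap.ker ev := fun w => ⟨ψ w (row i) - ψ 0 (row i), by
        simp [ev, ψ_one _ i hi]⟩
      have hg : Function.Injective g := by
        intro w w' h
        have e : ψ w (row i) = ψ w' (row i) := sub_left_injective (congrArg Subtype.val h)
        have e1 : σ w (row i) = σ w' (row i) := by
          ext x
          rw [← ψ_W, ← ψ_W, e]
        refine s3 w w' _ (row_ne i hi) e1 ?_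
        have := LinearMap.congr_fun e x0
        rw [ψ_x0, ψ_x0, neg_inj] at this
        rw [this, e1]
      obtain ⟨w, hw⟩ := surj_of_inj (F := F) (by omega) g hg
        ⟨(χ i.rep)⁻¹ • χ - ψ 0 (row i), by simp [ev, ψ_one _ i hi, hχi]⟩
      have e : ψ w (row i) = (χ i.rep)⁻¹ • χ := sub_left_injective (congrArg Subtype.val hw)
      have hφ : φ0 (x0 + w) = 1 := by rw [map_add, hx0, LinearMap.mem_ker.1 w.2, add_zero]
      have hne : x0 + (w : V) ≠ 0 := fun h => by simp [h] at hφ
      obtain ⟨a, ha, ha'⟩ := rep_smul (F := F) _ hne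
      have hφ' : a * φ0 (Projectivization.mk F _ hne).rep = 1 := by
        rw [← smul_eq_mul, ← map_smul, ha', hφ]
      have hj : Projectivization.mk F _ hne ∉ B0 := by
        rw [hB0]
        intro h
        simp [h] at hφ'
      have hc : col (Projectivization.mk F _ hne) = w := by
        apply Subtype.ext
        apply add_left_cancel (a := x0)
        rw [col_eq _ hj, ← eq_inv_of_mul_eq_one_left hφ', ha']
      refine ⟨_, hj, ?_⟩
      ext x
      simp [hc, e, hB', hχi]

theorem proj_spaces [Fintype (Projectivization F V)] [DecidableEq (Projectivization F V)]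
    (hq : ¬ (Nat.card F = 2 ∧ finrank F V = 3)) {Blk : Finset (Finset (Projectivization F V))}
    (hBlk : (∀ B, B ∈ Blk ↔ ∃ φ : Dual F V, φ ≠ 0 ∧ ∀ x, x ∈ B ↔ φ x.rep = 0) ∨
      (∀ B, B ∈ Blk ↔ ∃ φ : Dual F V, φ ≠ 0 ∧ ∀ x, x ∈ B ↔ φ x.rep ≠ 0))
    {B0 : Finset (Projectivization F V)} (h0 : B0 ∈ Blk) : Arrangeable Blk B0 := by
  rcases hBlk with h | h
  · exact proj_arrangeable hq h h0
  · refine Arrangeable.of_compl (proj_arrangeable hq (fun B => ?_) (mem_image_of_mem _ h0))
    have : B ∈ Blk.image compl ↔ Bᶜ ∈ Blk := by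
      simp only [mem_image]
      exact ⟨by rintro ⟨C, hC, rfl⟩; simpa using hC, fun hB => ⟨Bᶜ, hB, compl_compl B⟩⟩
    rw [this, h]
    simp only [mem_compl, not_iff_not]

end Pool.Agent.P.MP_77d020_co
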