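import Mathlib

/-! Arrangements in vector form: transport, field reduction and the recursion step. -/

namespace Pool.Agent.P.MP_77d020_co

open Module

/-- The vector form of an arrangement for the projective closure of the affine space `V`. -/
def Arr (F V : Type*) [Field F] [AddCommGroup V] [Module F V] : Prop :=
  ∃ σ : V → V → Dual F V, (∀ w u, u ≠ 0 → σ w u u = 1) ∧
    (∀ w u u' (c : F), u ≠ 0 → u' ≠ 0 → σ w u = c • σ w u' → ∃ a : F, u = a • u') ∧
    ∀ w w' u, u ≠ 0 → σ w u = σ w' u → σ w u w = σ w u w' → w = w'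

section

variable {F V W : Type*} [Field F] [AddCommGroup V] [Module F V] [AddCommGroup W] [Module F W]

theorem Arr.of_equiv (e : V ≃ₗ[F] W) (h : Arr F V) : Arr F W := by
  obtain ⟨σ, h1, h2, h3⟩ := h
  have hinj : ∀ φ ψ : Dual F V, φ ∘ₗ e.symm.toLinearMap = ψ ∘ₗ e.symm.toLinearMap → φ = ψ := by
    intro φ ψ h
    ext x
    simpa using LinearMap.congr_fun h (e x)
  refine ⟨fun w u => σ (e.symm w) (e.symm u) ∘ₗ e.symm.toLinearMap, fun w u hu => ?_,
    fun w u u' c hu hu' h => ?_, fun w w' u hu h h' => ?_⟩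
  · exact h1 _ _ (by simpa using hu)
  · obtain ⟨a, ha⟩ := h2 (e.symm w) (e.symm u) (e.symm u') c (by simpa using hu)
      (by simpa using hu') (hinj _ _ (by rw [LinearMap.smul_comp]; exact h))
    exact ⟨a, e.symm.injective (by rw [ha, map_smul])⟩
  · exact e.symm.injective (h3 _ _ (e.symm u) (by simpa using hu) (hinj _ _ h) h')

theorem Arr.of_finrank [FiniteDimensional F V] [FiniteDimensional F W]
    (e : finrank F V = finrank F W) (h : Arr F V) : Arr F W :=
  h.of_equiv (LinearEquiv.ofFinrankEq V W e)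

theorem exists_rep (F V : Type*) [Field F] [AddCommGroup V] [Module F V] :
    ∃ (r : V → V) (κ : V → F), (∀ u, u ≠ 0 → r u ≠ 0 ∧ κ u ≠ 0 ∧ κ u • r u = u) ∧
      ∀ u u' (a : F), u ≠ 0 → u' ≠ 0 → r u = a • r u' → r u = r u' := by
  classical
  have : ∀ u : V, ∃ k : F, ∀ h : u ≠ 0, k ≠ 0 ∧ k • (Projectivization.mk F u h).rep = u := by
    intro u
    by_cases h : u = 0
    · exact ⟨0, fun h' => (h' h).elim⟩
    · obtain ⟨a, ha⟩ := Projectivization.exists_smul_eq_mk_rep F u h
      refine ⟨(a⁻¹ : Fˣ), fun _ => ⟨Units.ne_zero _, ?_⟩⟩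
      rw [← ha, Units.smul_def, smul_smul]; simp
  choose κ hκ using this
  refine ⟨fun u => if h : u ≠ 0 then (Projectivization.mk F u h).rep else 0, κ, fun u hu => ?_,
    fun u u' a hu hu' h => ?_⟩
  · simp only [dif_pos hu]
    exact ⟨Projectivization.rep_nonzero _, hκ u hu⟩
  · simp only [dif_pos hu, dif_pos hu'] at h ⊢
    congr 1
    rw [← Projectivization.mk_rep (Projectivization.mk F u hu),
      ← Projectivization.mk_rep (Projectivization.mk F u' hu'), Projectivization.mk_eq_mk_iff']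
    exact ⟨a, h.symm⟩

end

theorem Arr.comp {F K V : Type*} [Field F] [Field K] [Algebra F K] [AddCommGroup V] [Module F V]
    [Module K V] [IsScalarTower F K V] (hV : Arr K V) (hK : Arr F K) : Arr F V := by
  obtain ⟨σ, s1, s2, s3⟩ := hV
  obtain ⟨τ, t1, t2, t3⟩ := hK
  obtain ⟨r, κ, r1, r2⟩ := exists_rep K V
  have key : ∀ (Φ Φ' : Dual K V) (φ φ' : Dual F K) (k : K) (y : V), φ k = 1 → Φ' y = 1 →
      (∀ x, φ (Φ x) = φ' (Φ' x)) → Φ = Φ y • Φ' := by
    intro Φ Φ' φ φ' k y hk hy h
    ext x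
    by_contra hx
    have h0 : Φ (x - Φ' x • y) ≠ 0 := by
      intro h0
      apply hx
      simp only [map_sub, map_smul, smul_eq_mul, sub_eq_zero] at h0
      simp [h0, mul_comm]
    have h1 := h ((k / Φ (x - Φ' x • y)) • (x - Φ' x • y))
    rw [map_smul Φ, map_smul Φ', smul_eq_mul, div_mul_cancel₀ _ h0, hk] at h1
    simp [hy] at h1
  have hu1 : ∀ w u, u ≠ 0 → σ w (r u) u = κ u := by
    intro w u hu
    conv_lhs => rw [← (r1 u hu).2.2, map_smul]
    rw [(r1 u hu).2.2, s1 _ _ (r1 u hu).1, smul_eq_mul, mul_one]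
  have hs : ∀ w u (φ φ' : Dual F K), u ≠ 0 → (∀ x, φ (σ w (r u) x) = φ' (σ w (r u) x)) →
      φ = φ' := by
    intro w u φ φ' hu h
    ext k
    simpa [s1 _ _ (r1 u hu).1] using h (k • r u)
  refine ⟨fun w u => τ (σ w (r u) w) (κ u) ∘ₗ (σ w (r u)).restrictScalars F, fun w u hu => ?_,
    fun w u u' c hu hu' h => ?_, fun w w' u hu h h' => ?_⟩
  · simp only [LinearMap.comp_apply, LinearMap.restrictScalars_apply, hu1 w u hu]
    exact t1 _ _ (r1 u hu).2.1
  · have hx : ∀ x, τ (σ w (r u) w) (κ u) (σ w (r u) x) =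
        (c • τ (σ w (r u') w) (κ u')) (σ w (r u') x) := fun x => LinearMap.congr_fun h x
    have e1 := key _ _ _ _ _ _ (t1 _ _ (r1 u hu).2.1) (s1 w _ (r1 u' hu').1) hx
    obtain ⟨a, ha⟩ := s2 _ _ _ _ (r1 u hu).1 (r1 u' hu').1 e1
    have e2 := r2 u u' a hu hu' ha
    rw [← e2] at hx
    obtain ⟨b, hb⟩ := t2 _ _ _ c (r1 u hu).2.1 (r1 u' hu').2.1 (hs w u _ _ hu hx)
    refine ⟨b, ?_⟩
    rw [← (r1 u hu).2.2, hb, e2, smul_assoc, (r1 u' hu').2.2]
  · have hx : ∀ x, τ (σ w (r u) w) (κ u) (σ w (r u) x) =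
        τ (σ w' (r u) w') (κ u) (σ w' (r u) x) := fun x => LinearMap.congr_fun h x
    have e1 := key _ _ _ _ _ _ (t1 _ _ (r1 u hu).2.1) (s1 w' _ (r1 u hu).1) hx
    rw [s1 w _ (r1 u hu).1, one_smul] at e1
    rw [← e1] at hx
    have e2 := hs w u _ _ hu hx
    exact s3 w w' (r u) (r1 u hu).1 e1 (t3 _ _ _ (r1 u hu).2.1 e2 h')

/-- The gadget used in the recursion step. -/
def Gadget (F : Type*) : Prop :=
  ∃ (m : F → F → F) (J : F → F → F → F), (∀ i t t', m t i = m t' i → t = t') ∧
    (∀ t i s, s ≠ m t i → J t i s ≠ i ∧ J t i s ≠ s) ∧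
    (∀ t i s s', s ≠ m t i → s' ≠ m t i → J t i s = J t i s' → s = s') ∧
    ∀ t i i' s, s ≠ m t i → s ≠ m t i' → J t i s = J t i' s → i = i'

theorem gadget_odd {F : Type*} [Field F] (h2 : (2 : F) ≠ 0) : Gadget F := by
  classical
  refine ⟨fun t i => 2 * t - i, fun t i s => if s = i then t else (s + i) / 2, ?_, ?_, ?_, ?_⟩
  · intro i t t' h
    exact mul_left_cancel₀ h2 (by linear_combination h)
  · intro t i s h
    dsimp only at h ⊢
    split_ifs with h1
    · subst h1
      exact ⟨fun e => h (by rw [e]; ring), fun e => h (by rw [e]; ring)⟩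
    · rw [Ne, Ne, div_eq_iff h2, div_eq_iff h2]
      exact ⟨fun e => h1 (by linear_combination e), fun e => h1 (by linear_combination -e)⟩
  · intro t i s s' h h' e
    dsimp only at h h' e
    split_ifs at e with h1 h3 h3
    · rw [h1, h3]
    · rw [eq_div_iff h2] at e
      exact (h' (by linear_combination -e)).elim
    · rw [div_eq_iff h2] at e
      exact (h (by linear_combination e)).elim
    · rw [div_left_inj' h2] at e
      linear_combination e
  · intro t i i' s h h' e
    dsimp only at h h' e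
    split_ifs at e with h1 h3 h3
    · rw [← h1, h3]
    · rw [eq_div_iff h2] at e
      exact (h' (by linear_combination -e)).elim
    · rw [div_eq_iff h2] at e
      exact (h (by linear_combination e)).elim
    · rw [div_left_inj' h2] at e
      linear_combination e

theorem gadget_even {F : Type*} [Field F] (h2 : (2 : F) = 0) (n ω : F)
    (hn : ∀ x : F, x ^ 2 + x + n ≠ 0) (h0 : ω ≠ 0) (h1 : 1 + ω ≠ 0) : Gadget F := by
  classical
  have hq : ∀ t i : F, t ≠ 0 → i * (i + t) + t ^ 2 * n ≠ 0 := by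
    intro t i ht h
    apply hn (i / t)
    field_simp
    linear_combination h
  have hd : ∀ t i s : F, s ≠ i + t → s + i + t ≠ 0 := fun t i s h e =>
    h (by linear_combination e - (i + t) * h2)
  refine ⟨fun t i => i + t, fun t i s => if t = 0 then (s + ω * i) / (1 + ω)
    else (s * i + t ^ 2 * n) / (s + i + t), ?_, ?_, ?_, ?_⟩
  · intro i t t' h
    linear_combination h
  · intro t i s h
    dsimp only at h ⊢
    split_ifs with ht
    · rw [Ne, Ne, div_eq_iff h1, div_eq_iff h1]
      refine ⟨fun e => h (by linear_combination e - ht), fun e => h ?_⟩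
      have : ω * (i - s) = 0 := by linear_combination e
      rcases mul_eq_zero.1 this with h3 | h3
      · exact (h0 h3).elim
      · linear_combination -h3 - ht
    · rw [Ne, Ne, div_eq_iff (hd t i s h), div_eq_iff (hd t i s h)]
      exact ⟨fun e => hq t i ht (by linear_combination e + i * (i + t) * h2),
        fun e => hq t s ht (by linear_combination e + s * (s + t) * h2)⟩
  · intro t i s s' h h' e
    dsimp only at h h' e
    split_ifs at e with ht
    · rw [div_left_inj' h1] at e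
      linear_combination e
    · rw [div_eq_div_iff (hd t i s h) (hd t i s' h')] at e
      have : (s - s') * (i * (i + t) + t ^ 2 * n) = 0 := by
        linear_combination e + (s - s') * t ^ 2 * n * h2
      rcases mul_eq_zero.1 this with h3 | h3
      · linear_combination h3
      · exact (hq t i ht h3).elim
  · intro t i i' s h h' e
    dsimp only at h h' e
    split_ifs at e with ht
    · rw [div_left_inj' h1] at e
      exact mul_left_cancel₀ h0 (by linear_combination e)
    · rw [div_eq_div_iff (hd t i s h) (hd t i' s h')] at e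
      have : (i - i') * (s * (s + t) + t ^ 2 * n) = 0 := by
        linear_combination e + (i - i') * t ^ 2 * n * h2
      rcases mul_eq_zero.1 this with h3 | h3
      · linear_combination h3
      · exact (hq t s ht h3).elim

theorem gadget {F : Type*} [Field F] [Finite F] (h3 : 3 ≤ Nat.card F) : Gadget F := by
  classical
  by_cases h2 : (2 : F) = 0
  · have : ¬ Function.Surjective fun x : F => x ^ 2 + x := by
      rw [← Finite.injective_iff_surjective]
      intro h
      exact zero_ne_one (h (a₁ := 0) (a₂ := 1) (by linear_combination -h2))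
    obtain ⟨n, hn⟩ := not_forall.1 this
    have := Fintype.ofFinite F
    obtain ⟨ω, hω⟩ : ∃ ω : F, ω ∉ ({0, -1} : Finset F) := by
      by_contra hc
      push Not at hc
      have h4 := Finset.card_le_card (show Finset.univ ⊆ ({0, -1} : Finset F) from
        fun x _ => hc x)
      have h5 : ({0, -1} : Finset F).card ≤ 2 := Finset.card_le_two
      rw [Finset.card_univ, ← Nat.card_eq_fintype_card] at h4
      omega
    simp only [Finset.mem_insert, Finset.mem_singleton, not_or] at hω
    refine gadget_even h2 n ω (fun x h => hn ⟨x, ?_⟩) hω.1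
      (fun h => hω.2 (by linear_combination h))
    linear_combination h - n * h2
  · exact gadget_odd h2

theorem Arr.step {F V : Type*} [Field F] [AddCommGroup V] [Module F V] (hG : Gadget F)
    (A : V ≃ₗ[F] Dual F V) (hA : ∀ x, A x x = 0) (hV : Arr F V) : Arr F (V × F) := by
  classical
  obtain ⟨m, J, g1, g2, g3, g4⟩ := hG
  obtain ⟨σ, s1, s2, s3⟩ := hV
  obtain ⟨r, κ, r1, r2⟩ := exists_rep F V
  let v : V → V := fun ρ => A.symm (σ 0 ρ)
  have hv : ∀ ρ, A (v ρ) = σ 0 ρ := fun ρ => by simp [v]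
  have hAv : ∀ ρ, σ 0 ρ (v ρ) = 0 := fun ρ => by rw [← hv, hA]
  let mk : Dual F V → F → Dual F (V × F) := fun p γ => p.coprod (γ • LinearMap.id)
  have mk_apply : ∀ p γ x t, mk p γ (x, t) = p x + γ * t := fun p γ x t => by simp [mk]
  have mk_smul : ∀ (c : F) p γ, c • mk p γ = mk (c • p) (c * γ) := by
    intro c p γ
    refine LinearMap.ext fun ⟨x, t⟩ => ?_
    simp [mk_apply, mul_add, mul_assoc]
  have mk_inj : ∀ p γ p' γ', mk p γ = mk p' γ' → p = p' ∧ γ = γ' := by
    intro p γ p' γ' h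
    refine ⟨LinearMap.ext fun x => ?_, ?_⟩
    · simpa [mk_apply] using LinearMap.congr_fun h (x, 0)
    · simpa [mk_apply] using LinearMap.congr_fun h (0, 1)
  -- coordinates in the plane attached to a row direction
  let I : V → V → F := fun w ρ => A w ρ
  let T : V → F → V → F := fun w t ρ => t + I w ρ * σ 0 ρ w
  let j : V → F → V → F → F := fun w t ρ s => J (T w t ρ) (I w ρ) s
  let p : V → F → V → F → Dual F V := fun w t ρ s => A (w + (j w t ρ s - I w ρ) • v ρ)
  let S : V → F → V → F → Dual F (V × F) := fun w t ρ s =>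
    if s = m (T w t ρ) (I w ρ) then mk (σ w ρ) 0
    else (s - j w t ρ s)⁻¹ • mk (-p w t ρ s) 1
  have hp : ∀ w t ρ s, ρ ≠ 0 → p w t ρ s ρ = j w t ρ s := by
    intro w t ρ s hρ
    simp [p, hv, s1 _ _ hρ, I]
  have S1 : ∀ w t ρ s, ρ ≠ 0 → S w t ρ s (ρ, s) = 1 := by
    intro w t ρ s hρ
    simp only [S]
    split_ifs with h
    · simp [mk_apply, s1 _ _ hρ]
    · have := (g2 _ _ _ h).2
      have h' : s - j w t ρ s ≠ 0 := sub_ne_zero.2 this.symm
      simp only [LinearMap.smul_apply, mk_apply, LinearMap.neg_apply, hp w t ρ s hρ, smul_eq_mul]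
      field_simp
      ring
  have S2 : ∀ w t u u' s s' (c : F), u ≠ 0 → u' ≠ 0 → S w t (r u) s = c • S w t (r u') s' →
      r u = r u' ∧ s = s' := by
    intro w t u u' s s' c hu hu' h
    have hρ := (r1 u hu).1
    have hρ' := (r1 u' hu').1
    simp only [S] at h
    split_ifs at h with h1 h2 h2
    · rw [mk_smul] at h
      obtain ⟨a, ha⟩ := s2 _ _ _ _ hρ hρ' (mk_inj _ _ _ _ h).1
      have e := r2 u u' a hu hu' ha
      exact ⟨e, by rw [h1, h2, e]⟩
    · rw [mk_smul, mk_smul] at h
      obtain ⟨e1, e2⟩ := mk_inj _ _ _ _ h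
      have h' : s' - j w t (r u') s' ≠ 0 := sub_ne_zero.2 (g2 _ _ _ h2).2.symm
      have hc : c = 0 := by simpa [h'] using e2.symm
      have := s1 w _ hρ
      simp [e1, hc] at this
    · rw [mk_smul, mk_smul] at h
      have h' : s - j w t (r u) s ≠ 0 := sub_ne_zero.2 (g2 _ _ _ h1).2.symm
      simpa [h'] using (mk_inj _ _ _ _ h).2
    · rw [smul_smul, mk_smul, mk_smul] at h
      obtain ⟨e1, e2⟩ := mk_inj _ _ _ _ h
      have h' : (s - j w t (r u) s)⁻¹ ≠ 0 := inv_ne_zero (sub_ne_zero.2 (g2 _ _ _ h1).2.symm)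
      rw [mul_one, mul_one] at e2
      rw [← e2] at e1
      have e3 : p w t (r u) s = p w t (r u') s' := neg_injective (smul_right_injective _ h' e1)
      have e4 := add_left_cancel (A.injective e3)
      have h4 : j w t (r u) s - I w (r u) ≠ 0 := sub_ne_zero.2 (g2 _ _ _ h1).1
      have e5 : σ 0 (r u) = ((j w t (r u) s - I w (r u))⁻¹ * (j w t (r u') s' - I w (r u'))) •
          σ 0 (r u') := by
        rw [← hv, ← hv, mul_smul, ← map_smul, ← map_smul, ← e4, smul_smul, inv_mul_cancel₀ h4,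
          one_smul]
      obtain ⟨a, ha⟩ := s2 _ _ _ _ hρ hρ' e5
      have e := r2 u u' a hu hu' ha
      refine ⟨e, ?_⟩
      rw [← e] at e3 h2
      exact g3 _ _ _ _ h1 h2 (by rw [← hp w t _ s hρ, ← hp w t _ s' hρ, e3] : j _ _ _ _ = j _ _ _ _)
  have S3 : ∀ w t ρ s (c : F), ρ ≠ 0 → S w t ρ s ≠ c • mk (-A w) 1 := by
    intro w t ρ s c hρ h
    simp only [S] at h
    split_ifs at h with h1
    · rw [mk_smul] at h
      obtain ⟨e1, e2⟩ := mk_inj _ _ _ _ h
      have hc : c = 0 := by simpa using e2.symm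
      have := s1 w _ hρ
      simp [e1, hc] at this
    · rw [mk_smul, mk_smul] at h
      obtain ⟨e1, e2⟩ := mk_inj _ _ _ _ h
      have h' : (s - j w t ρ s)⁻¹ ≠ 0 := inv_ne_zero (sub_ne_zero.2 (g2 _ _ _ h1).2.symm)
      rw [mul_one, mul_one] at e2
      rw [← e2] at e1
      have e3 : p w t ρ s = A w := neg_injective (smul_right_injective _ h' e1)
      exact (g2 _ _ _ h1).1 (by rw [← hp w t _ s hρ, e3] : j _ _ _ _ = I _ _)
  have S4 : ∀ w t w' t' ρ s, ρ ≠ 0 → S w t ρ s = S w' t' ρ s →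
      S w t ρ s (w, t) = S w t ρ s (w', t') → w = w' ∧ t = t' := by
    intro w t w' t' ρ s hρ h hl
    simp only [S] at h hl
    split_ifs at h hl with h1 h2 h2
    · have e := s3 w w' ρ hρ (mk_inj _ _ _ _ h).1 (by simpa [mk_apply] using hl)
      subst e
      have := g1 _ _ _ (h1.symm.trans h2)
      exact ⟨rfl, by simpa [T] using this⟩
    · rw [mk_smul] at h
      have h' : s - j w' t' ρ s ≠ 0 := sub_ne_zero.2 (g2 _ _ _ h2).2.symm
      simpa [h'] using (mk_inj _ _ _ _ h).2.symm
    · rw [mk_smul] at h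
      have h' : s - j w t ρ s ≠ 0 := sub_ne_zero.2 (g2 _ _ _ h1).2.symm
      simpa [h'] using (mk_inj _ _ _ _ h).2
    · rw [mk_smul, mk_smul] at h
      obtain ⟨e1, e2⟩ := mk_inj _ _ _ _ h
      have h' : (s - j w t ρ s)⁻¹ ≠ 0 := inv_ne_zero (sub_ne_zero.2 (g2 _ _ _ h1).2.symm)
      rw [mul_one, mul_one] at e2
      rw [← e2] at e1
      have e3 : p w t ρ s = p w' t' ρ s := neg_injective (smul_right_injective _ h' e1)
      have ej : j w t ρ s = j w' t' ρ s := by rw [← hp w t _ s hρ, ← hp w' t' _ s hρ, e3]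
      have e4 := A.injective e3
      have eg : σ 0 ρ w = σ 0 ρ w' := by simpa [hAv] using congrArg (σ 0 ρ) e4
      have hl' : -p w t ρ s w + t = -p w t ρ s w' + t' := by
        simpa [mk_apply, h'] using hl
      have p1 : p w t ρ s w = (j w t ρ s - I w ρ) * σ 0 ρ w := by simp [p, hA, hv]
      have p2 : p w' t' ρ s w' = (j w' t' ρ s - I w' ρ) * σ 0 ρ w' := by simp [p, hA, hv]
      have eT : T w t ρ = T w' t' ρ := by
        rw [p1, e3, p2, ← ej, ← eg] at hl'
        simp only [T, ← eg]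
        linear_combination hl'
      have eI : I w ρ = I w' ρ := by
        refine g4 (T w t ρ) _ _ s h1 (eT ▸ h2) ?_
        have := ej
        simp only [j, ← eT] at this
        exact this
      rw [← ej, ← eI] at e4
      have e5 := add_right_cancel e4
      subst e5
      exact ⟨rfl, by simpa [T] using eT⟩
  refine ⟨fun w u => if u.1 = 0 then u.2⁻¹ • mk (-A w.1) 1
    else (κ u.1)⁻¹ • S w.1 w.2 (r u.1) (u.2 / κ u.1), ?_, ?_, ?_⟩
  · rintro ⟨w, t⟩ ⟨u, s⟩ hu
    dsimp only
    split_ifs with h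
    · subst h
      have : s ≠ 0 := fun h => hu (by simp [h])
      simp [mk_apply, this]
    · obtain ⟨a1, a2, a3⟩ := r1 u h
      have : ((u, s) : V × F) = κ u • (r u, s / κ u) := by
        simp [a3, mul_div_cancel₀ _ a2]
      rw [LinearMap.smul_apply, this, map_smul, S1 _ _ _ _ a1]
      simp [a2]
  · rintro ⟨w, t⟩ ⟨u, s⟩ ⟨u', s'⟩ c hu hu' h
    dsimp only at h
    split_ifs at h with h1 h2 h2
    · subst h1 h2
      have : s' ≠ 0 := fun h => hu' (by simp [h])
      exact ⟨s / s', by simp [this]⟩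
    · subst h1
      have hs : s ≠ 0 := fun h => hu (by simp [h])
      have hc : c ≠ 0 := by
        rintro rfl
        rw [zero_smul, smul_eq_zero] at h
        rcases h with h | h
        · exact inv_ne_zero hs h
        · simpa [mk_apply] using LinearMap.congr_fun h (0, 1)
      refine (S3 w t _ (s' / κ u') (κ u' * c⁻¹ * s⁻¹) (r1 u' h2).1 ?_).elim
      rw [mul_smul, h, smul_smul, smul_smul]
      have := (r1 u' h2).2.1
      rw [show κ u' * c⁻¹ * c * (κ u')⁻¹ = 1 by field_simp, one_smul]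
    · refine (S3 w t _ (s / κ u) (κ u * c * s'⁻¹) (r1 u h1).1 ?_).elim
      rw [mul_smul, mul_smul, ← h, smul_smul, mul_inv_cancel₀ (r1 u h1).2.1, one_smul]
    · obtain ⟨a1, a2, a3⟩ := r1 u h1
      obtain ⟨b1, b2, b3⟩ := r1 u' h2
      obtain ⟨e1, e2⟩ := S2 w t u u' (s / κ u) (s' / κ u') (κ u * c * (κ u')⁻¹) h1 h2 (by
        rw [mul_smul, mul_smul, ← h, smul_smul, mul_inv_cancel₀ a2, one_smul])
      refine ⟨κ u / κ u', Prod.ext ?_ ?_⟩
      · change u = (κ u / κ u') • u'
        conv_rhs => rw [← b3, smul_smul]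
        rw [b3, div_mul_cancel₀ _ b2, ← e1, a3]
      · change s = (κ u / κ u') * s'
        rw [div_eq_div_iff a2 b2] at e2
        field_simp
        linear_combination e2
  · rintro ⟨w, t⟩ ⟨w', t'⟩ ⟨u, s⟩ hu h hl
    dsimp only at h hl
    split_ifs at h hl with h1
    · subst h1
      have hs : s⁻¹ ≠ 0 := inv_ne_zero fun h => hu (by simp [h])
      have e := A.injective (neg_injective (mk_inj _ _ _ _ (smul_right_injective _ hs h)).1)
      subst e
      have : t = t' := by simpa [mk_apply, hs] using hl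
      rw [this]
    · obtain ⟨a1, a2, a3⟩ := r1 u h1
      obtain ⟨e1, e2⟩ := S4 w t w' t' (r u) (s / κ u) a1
        (smul_right_injective _ (inv_ne_zero a2) h) (by simpa [a2] using hl)
      rw [e1, e2]

end Pool.Agent.P.MP_77d020_co
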